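import Pool.Agent.Lib.MP_8f9fef_lc.Grp21

/-! The alternating group on five letters acts on 21 points without a fixed point while every
proper subgroup has one. -/

namespace Pool.Agent.Lib.MP_8f9fef_lc.Grp21

open MulAction Subgroup
open scoped Pointwise

abbrev A5 := alternatingGroup (Fin 5)

def Prs : SubMulAction A5 (Finset (Fin 5)) where
  carrier := {s | s.card = 2}
  smul_mem' := fun g s hs => by
    have : (g • s).card = s.card := Finset.card_smul_finset g s
    exact this.trans hs

abbrev X21 := Fin 5 ⊕ (Sylow 5 A5 ⊕ Prs)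

theorem card_A5 : Nat.card A5 = 60 := by
  rw [nat_card_alternatingGroup]
  simp [Nat.factorial]

theorem not_cyc : ¬ IsCyclic A5 := fun h => by
  let _ : CommGroup A5 := IsCyclic.commGroup
  have := IsSimpleGroup.prime_card (α := A5)
  rw [card_A5] at this
  exact absurd this (by norm_num)

theorem card_syl (P : Sylow 5 A5) : Nat.card P = 5 := by
  have : Fact (Nat.Prime 5) := ⟨Nat.prime_five⟩
  rw [P.card_eq_multiplicity, card_A5]
  have : (60 : ℕ).factorization 5 = 1 := by
    rw [Nat.factorization_def _ Nat.prime_five]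
    exact (by norm_num : (60 : ℕ) = 5 ^ 1 * 12) ▸ by
      rw [padicValNat.mul (by norm_num) (by norm_num), padicValNat.prime_pow,
        padicValNat.eq_zero_of_not_dvd (by norm_num)]
  rw [this]
  norm_num

theorem card_X21 : Nat.card X21 ≤ 21 := by
  have : Fact (Nat.Prime 5) := ⟨Nat.prime_five⟩
  have h1 : Nat.card (Sylow 5 A5) ≤ 6 := by
    obtain ⟨P⟩ : Nonempty (Sylow 5 A5) := Sylow.nonempty
    have e1 := card_sylow_modEq_one 5 A5
    have e2 := P.card_dvd_index
    have e3 := (P : Subgroup A5).card_mul_index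
    rw [card_syl, card_A5] at e3
    have e4 : (P : Subgroup A5).index = 12 := by omega
    rw [e4] at e2
    have e5 := Nat.le_of_dvd (by norm_num) e2
    unfold Nat.ModEq at e1
    generalize Nat.card (Sylow 5 A5) = m at *
    interval_cases m <;> omega
  have h2 : Nat.card Prs = 10 := by
    have : Nat.card Prs = Nat.card {s : Finset (Fin 5) // s.card = 2} := rfl
    rw [this, Nat.card_eq_fintype_card, Fintype.card_finset_len]
    rfl
  rw [Nat.card_sum, Nat.card_sum, h2]
  simp only [Nat.card_eq_fintype_card, Fintype.card_fin] at h1 ⊢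
  omega

theorem nofix_set (s : Finset (Fin 5)) (h0 : s ≠ ∅) (h1 : s ≠ Finset.univ) :
    ∃ g : A5, g • s ≠ s := by
  let g : A5 := ⟨finRotate 5, by
    rw [Equiv.Perm.mem_alternatingGroup, sign_finRotate]
    rfl⟩
  refine ⟨g, ?_⟩
  have : g • s = s.image (finRotate 5) := rfl
  rw [this]
  revert s
  decide

theorem hf21 (x : X21) : ∃ g : A5, g • x ≠ x := by
  have : Fact (Nat.Prime 5) := ⟨Nat.prime_five⟩
  rcases x with a | P | s
  · obtain ⟨g, hg⟩ := nofix_set {a} (by simp) (by revert a; decide)
    refine ⟨g, fun h => hg ?_⟩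
    have h' : g • a = a := Sum.inl.inj h
    rw [Finset.smul_finset_singleton, h']
  · by_contra hcon
    push Not at hcon
    have hN : normalizer (P : Set A5) = ⊤ := by
      rw [eq_top_iff]
      intro g _
      exact Sylow.smul_eq_iff_mem_normalizer.mp (Sum.inl.inj (Sum.inr.inj (hcon g)))
    have hn : (P : Subgroup A5).Normal := Subgroup.normalizer_eq_top_iff.mp hN
    have hc := card_syl P
    rcases hn.eq_bot_or_eq_top with h' | h'
    · have : Nat.card (P : Subgroup A5) = 1 := by rw [h']; simp
      omega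
    · have : Nat.card (P : Subgroup A5) = 60 := by rw [h', Subgroup.card_top, card_A5]
      omega
  · have hs : (s : Finset (Fin 5)).card = 2 := s.2
    obtain ⟨g, hg⟩ := nofix_set s (fun h => by rw [h] at hs; simp at hs)
      (fun h => by rw [h] at hs; simp at hs)
    exact ⟨g, fun h => hg (congrArg Subtype.val (Sum.inr.inj (Sum.inr.inj h)))⟩

theorem small_fix (H : Subgroup A5) (s : Finset (Fin 5)) (h0 : 1 ≤ s.card) (h2 : s.card ≤ 2)
    (hs : ∀ g ∈ H, ∀ a ∈ s, g • a ∈ s) : ∃ x : X21, ∀ g ∈ H, g • x = x := by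
  rcases (by omega : s.card = 1 ∨ s.card = 2) with h | h
  · obtain ⟨a, rfl⟩ := Finset.card_eq_one.mp h
    exact ⟨Sum.inl a, fun g hg => congrArg Sum.inl
      (Finset.mem_singleton.mp (hs g hg a (Finset.mem_singleton_self a)))⟩
  · refine ⟨Sum.inr (Sum.inr ⟨s, h⟩), fun g hg => congrArg Sum.inr (congrArg Sum.inr
      (Subtype.ext ?_))⟩
    refine Finset.eq_of_subset_of_card_le ?_ (Finset.card_smul_finset g s).ge
    intro b hb
    obtain ⟨a, ha, rfl⟩ := Finset.mem_smul_finset.mp hb
    exact hs g hg a ha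

theorem hs21 (H : Subgroup A5) (hH : H ≠ ⊤) : ∃ x : X21, ∀ g ∈ H, g • x = x := by
  classical
  have : Fact (Nat.Prime 5) := ⟨Nat.prime_five⟩
  by_cases h5 : 5 ∣ Nat.card H
  · have e1 := two_mul_dvd not_cyc H hH
    have e2 := H.card_mul_index
    rw [card_A5] at e1 e2
    have e3 : 5 ≤ H.index := by
      by_contra hlt
      push Not at hlt
      generalize H.index = m at *
      interval_cases m <;> exact absurd e1 (by decide)
    have e4 : Nat.card H ≤ 12 := by nlinarith
    obtain ⟨Q⟩ : Nonempty (Sylow 5 H) := Sylow.nonempty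
    have hQ : 5 ≤ Nat.card Q := by
      have := Q.dvd_card_of_dvd_card h5
      exact Nat.le_of_dvd Nat.card_pos this
    have hone : Nat.card (Sylow 5 H) = 1 := by
      have f1 := card_sylow_modEq_one 5 H
      have f2 := Q.card_dvd_index
      have f3 := (Q : Subgroup H).card_mul_index
      have f4 : (Q : Subgroup H).index ≤ 2 := by nlinarith
      have f5 := Nat.le_of_dvd (Nat.pos_of_ne_zero Subgroup.index_ne_zero_of_finite) f2
      unfold Nat.ModEq at f1
      omega
    have hsub : Subsingleton (Sylow 5 H) := (Nat.card_eq_one_iff_unique.mp hone).1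
    obtain ⟨P, hP⟩ := (Q.isPGroup'.map H.subtype).exists_le_sylow
    have hPe : (Q : Subgroup H).map H.subtype = P := by
      refine Subgroup.eq_of_le_of_card_ge hP ?_
      rw [Subgroup.card_map_of_injective H.subtype_injective]
      exact (card_syl P).le.trans hQ
    have hPH : (P : Subgroup A5) ≤ H := hPe ▸ Subgroup.map_subtype_le _
    refine ⟨Sum.inr (Sum.inl P), fun g hg => congrArg Sum.inr (congrArg Sum.inl ?_)⟩
    exact Sylow.subtype_injective (hP := Sylow.smul_le hPH ⟨g, hg⟩) (hQ := hPH)
      (Subsingleton.elim _ _)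
  · let s : Finset (Fin 5) := Finset.univ.filter (· ∈ orbit H (0 : Fin 5))
    have hmem : ∀ a, a ∈ s ↔ a ∈ orbit H (0 : Fin 5) := fun a => by simp [s]
    have hs : ∀ g ∈ H, ∀ a ∈ s, g • a ∈ s := fun g hg a ha =>
      (hmem _).mpr (mem_orbit_of_mem_orbit (⟨g, hg⟩ : H) ((hmem _).mp ha))
    have h1 : 1 ≤ s.card := Finset.card_pos.mpr ⟨0, (hmem _).mpr (mem_orbit_self _)⟩
    have hle : s.card ≤ 5 := by simpa using s.card_le_univ
    have hne : s.card ≠ 5 := fun h => h5 (by
      have e1 := (stabilizer H (0 : Fin 5)).index_dvd_card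
      have e2 : orbit H (0 : Fin 5) = (s : Set (Fin 5)) := by
        ext a
        rw [Finset.mem_coe, hmem]
      rwa [index_stabilizer, e2, Set.ncard_coe_finset, h] at e1)
    by_cases h2 : s.card ≤ 2
    · exact small_fix H s h1 h2 hs
    · have hc : sᶜ.card = 5 - s.card := by simp [Finset.card_compl]
      refine small_fix H sᶜ (by omega) (by omega) fun g hg a ha => ?_
      rw [Finset.mem_compl] at ha ⊢
      intro h
      have := hs g⁻¹ (H.inv_mem hg) _ h
      rw [inv_smul_smul] at this
      exact ha this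

end Pool.Agent.Lib.MP_8f9fef_lc.Grp21
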