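import Pool.Agent.Lib.MP_8f9fef_lc.Defs

/-!
Closure properties of pp-definable sets, polymorphisms, the free structure.
-/

namespace H6PP

variable {σ τ : Sig}

theorem PP.congr {B : Str σ} {V : Type} {P Q : Set (V → B.D)} (h : PP B V P) (e : P = Q) :
    PP B V Q := e ▸ h

theorem PP.ren {B : Str σ} {V : Type} {P : Set (V → B.D)} (h : PP B V P) :
    ∀ (W : Type) (φ : V → W), PP B W {a | a ∘ φ ∈ P} := by
  induction h with
  | atom V i v => intro W φ; exact PP.atom W i (φ ∘ v)
  | eq V j k => intro W φ; exact PP.eq W (φ j) (φ k)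
  | and V P Q _ _ ih1 ih2 => intro W φ; exact PP.and W _ _ (ih1 W φ) (ih2 W φ)
  | ex V P _ ih =>
    intro W φ
    refine (PP.ex W _ (ih (Option W) (Option.map φ))).congr ?_
    ext a
    simp only [Set.mem_setOf_eq]
    refine exists_congr (fun b => ?_)
    have : ((fun o : Option W => o.elim b a) ∘ Option.map φ)
        = fun o : Option V => o.elim b (a ∘ φ) := by
      funext o; cases o <;> rfl
    rw [this]

theorem PP.top (B : Str σ) (V : Type) : PP B V Set.univ := by
  refine (PP.ex V _ (PP.eq (Option V) none none)).congr ?_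
  obtain ⟨b⟩ := B.ne
  ext a
  simp only [Set.mem_setOf_eq, Set.mem_univ, iff_true]
  exact ⟨b, trivial⟩

theorem PP.all {B : Str σ} {V J : Type} [Finite J] (P : J → Set (V → B.D))
    (h : ∀ j, PP B V (P j)) : PP B V {a | ∀ j, a ∈ P j} := by
  classical
  haveI := Fintype.ofFinite J
  have key : ∀ s : Finset J, PP B V {a | ∀ j ∈ s, a ∈ P j} := by
    intro s
    induction s using Finset.induction_on with
    | empty => exact (PP.top B V).congr (by ext a; simp)
    | insert j s _ ih => exact (PP.and V _ _ (h j) ih).congr (by ext a; simp)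
  exact (key Finset.univ).congr (by ext a; simp)

theorem PP.exs {B : Str σ} (W : Type) [Finite W] : ∀ (V : Type) (P : Set (V ⊕ W → B.D)),
    PP B (V ⊕ W) P → PP B V {a | ∃ w : W → B.D, Sum.elim a w ∈ P} := by
  induction W using Finite.induction_empty_option with
  | of_equiv e ih =>
    intro V P h
    refine (ih V _ (h.ren _ (Sum.map id e.symm))).congr ?_
    ext a
    simp only [Set.mem_setOf_eq]
    constructor
    · rintro ⟨w, hw⟩
      refine ⟨w ∘ e.symm, ?_⟩
      convert hw using 1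
      funext o; cases o <;> rfl
    · rintro ⟨w, hw⟩
      refine ⟨w ∘ e, ?_⟩
      convert hw using 1
      funext o; cases o <;> simp
  | h_empty =>
    intro V P h
    refine (h.ren V (Sum.elim id PEmpty.elim)).congr ?_
    ext a
    simp only [Set.mem_setOf_eq]
    constructor
    · intro hw
      refine ⟨PEmpty.elim, ?_⟩
      convert hw using 1
      funext o; rcases o with o | o
      · rfl
      · exact o.elim
    · rintro ⟨w, hw⟩
      convert hw using 1
      funext o; rcases o with o | o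
      · rfl
      · exact o.elim
  | @h_option W _ ih =>
    intro V P h
    have h1 := PP.ex V _ (ih (Option V) _ (h.ren (Option V ⊕ W)
      (Sum.elim (fun v => Sum.inl (some v))
        (fun o : Option W => o.elim (Sum.inl none) Sum.inr))))
    refine h1.congr ?_
    ext a
    simp only [Set.mem_setOf_eq]
    constructor
    · rintro ⟨b, w, hw⟩
      refine ⟨fun o => o.elim b w, ?_⟩
      convert hw using 1
      funext o; rcases o with o | o
      · rfl
      · cases o <;> rfl
    · rintro ⟨w, hw⟩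
      refine ⟨w none, fun x => w (some x), ?_⟩
      convert hw using 1
      funext o; rcases o with o | o
      · rfl
      · cases o <;> rfl

/-- Polymorphisms of any arity type. -/
def Pol (B : Str σ) {κ : Type} (f : (κ → B.D) → B.D) : Prop :=
  ∀ i (s : κ → Fin (σ.ar i) → B.D), (∀ k, s k ∈ B.rel i) →
    (fun j => f (fun k => s k j)) ∈ B.rel i

theorem PP.pres {B : Str σ} {κ : Type} {f : (κ → B.D) → B.D} (hf : Pol B f) {V : Type}
    {P : Set (V → B.D)} (h : PP B V P) :
    ∀ s : κ → V → B.D, (∀ k, s k ∈ P) → (fun v => f (fun k => s k v)) ∈ P := by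
  induction h with
  | atom V i v => intro s hs; exact hf i (fun k => s k ∘ v) hs
  | eq V j k =>
    intro s hs
    show f _ = f _
    congr 1; funext l; exact hs l
  | and V P Q _ _ ih1 ih2 =>
    intro s hs; exact ⟨ih1 s (fun k => (hs k).1), ih2 s (fun k => (hs k).2)⟩
  | ex V P _ ih =>
    intro s hs
    choose b hb using hs
    refine ⟨f b, ?_⟩
    convert ih _ hb using 1
    funext o; cases o <;> rfl

/-- `B` has a polymorphism satisfying the height one identities listed in `S`. -/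
def Has (B : Str σ) {κ μ : Type} (S : Set ((κ → μ) × (κ → μ))) : Prop :=
  ∃ f : (κ → B.D) → B.D, Pol B f ∧ ∀ p ∈ S, ∀ t : μ → B.D, f (t ∘ p.1) = f (t ∘ p.2)

theorem PPC.has {B : Str τ} {A : Str σ} (h : PPC B A) {κ μ : Type}
    {S : Set ((κ → μ) × (κ → μ))} (hB : Has B S) : Has A S := by
  obtain ⟨d, R, -, hR, ⟨h, hh⟩, ⟨g, hg⟩⟩ := h
  obtain ⟨f, hf, hS⟩ := hB
  refine ⟨fun t => g (fun l => f (fun k => h (t k) l)), fun i s hs => ?_, fun p hp t => ?_⟩
  · exact hg i _ ((hR i).pres hf (fun k q => h (s k q.1) q.2) (fun k => hh i _ (hs k)))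
  · show g _ = g _
    congr 1; funext l
    exact hS p hp (fun m => h (t m) l)

def Hom (A C : Str σ) (h : A.D → C.D) : Prop := ∀ i, ∀ t ∈ A.rel i, h ∘ t ∈ C.rel i

theorem Has.equiv {A C : Str σ} {h : A.D → C.D} {g : C.D → A.D} (hh : Hom A C h)
    (hg : Hom C A g) {κ μ : Type} {S : Set ((κ → μ) × (κ → μ))} (hA : Has A S) : Has C S := by
  obtain ⟨f, hf, hS⟩ := hA
  refine ⟨fun t => h (f (fun k => g (t k))), fun i s hs => ?_, fun p hp t => ?_⟩
  · exact hh i _ (hf i (fun k => g ∘ s k) (fun k => hg i _ (hs k)))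
  · exact congrArg h (hS p hp (fun m => g (t m)))

theorem PPC.equiv {B : Str τ} {A C : Str σ} {h : A.D → C.D} {g : C.D → A.D} (hh : Hom A C h)
    (hg : Hom C A g) (hA : PPC B A) : PPC B C := by
  obtain ⟨d, R, hd, hR, ⟨u, hu⟩, ⟨v, hv⟩⟩ := hA
  exact ⟨d, R, hd, hR, ⟨u ∘ g, fun i t ht => hu i _ (hg i t ht)⟩,
    ⟨h ∘ v, fun i t ht => hh i _ (hv i t ht)⟩⟩

theorem pp_pol (B : Str σ) (κ : Type) [Finite κ] : PP B (κ → B.D) {g | Pol B g} := by
  haveI := σ.fin
  haveI := B.fin
  have h := PP.all (B := B) (V := κ → B.D)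
    (J := Σ i : σ.I, {s : κ → Fin (σ.ar i) → B.D // ∀ k, s k ∈ B.rel i})
    (fun j => {a | a ∘ (fun l k => j.2.1 k l) ∈ B.rel j.1}) (fun j => PP.atom _ _ _)
  refine h.congr ?_
  ext g
  exact ⟨fun hg i s hs => hg ⟨i, s, hs⟩, fun hg j => hg j.1 j.2.1 j.2.2⟩

/-- The free structure: a map from operations of arity `T` to `T` that sends the minors of each
polymorphism of arity `R` into `R` gives a pp-construction. -/
theorem free (B : Str τ) (T : Str σ) (γ : ((T.D → B.D) → B.D) → T.D)
    (hγ : ∀ i (g : (T.rel i → B.D) → B.D), Pol B g →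
      (fun j => γ (fun x => g (fun r => x (r.1 j)))) ∈ T.rel i) : PPC B T := by
  haveI := B.fin
  haveI := T.fin
  haveI := B.ne
  obtain ⟨d, ⟨e⟩⟩ := Finite.exists_equiv_fin (T.D → B.D)
  have hd : 1 ≤ d := Fin.pos (e (Classical.arbitrary _))
  refine ⟨d, fun i => {F | ∃ g : (T.rel i → B.D) → B.D, Pol B g ∧
    ∀ j l, F j l = g (fun r => e.symm l (r.1 j))}, hd, fun i => ?_,
    ⟨fun t l => e.symm l t, fun i t ht => ⟨fun x => x ⟨t, ht⟩, fun i' s hs => hs _,
      fun j l => rfl⟩⟩, ⟨fun F => γ (F ∘ e), ?_⟩⟩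
  · have h1 := (pp_pol B (T.rel i)).ren ((Fin (σ.ar i) × Fin d) ⊕ (T.rel i → B.D)) Sum.inr
    have h2 := PP.all (B := B) (V := (Fin (σ.ar i) × Fin d) ⊕ (T.rel i → B.D))
      (J := Fin (σ.ar i) × Fin d)
      (fun q => {a | a (Sum.inl q) = a (Sum.inr (fun r => e.symm q.2 (r.1 q.1)))})
      (fun q => PP.eq _ _ _)
    refine (PP.exs _ _ _ (PP.and _ _ _ h1 h2)).congr ?_
    ext a
    simp only [Set.mem_setOf_eq, Set.mem_inter_iff]
    exact ⟨fun ⟨g, hg, h⟩ => ⟨g, hg, fun j l => h (j, l)⟩,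
      fun ⟨g, hg, h⟩ => ⟨g, hg, fun q => h q.1 q.2⟩⟩
  · rintro i F ⟨g, hg, h⟩
    convert hγ i g hg using 1
    funext j
    show γ _ = γ _
    congr 1; funext x
    show F j (e x) = _
    rw [h, e.symm_apply_apply]

end H6PP
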