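import Pool.Agent.Lib.MP_8f9fef_lc.Defs

/-! Directed cycles of prime length. -/

namespace H6PP

/-- The directed cycle on the residues modulo a prime `p`, with edges `(i, i + 1)`. -/
def Cyc (p : ℕ) [Fact p.Prime] : Str (bin Unit inferInstance) :=
  ⟨ZMod p, inferInstance, inferInstance, fun _ => {t : Fin 2 → ZMod p | t 1 = t 0 + 1}⟩

end H6PP
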