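import Mathlib

/-!
Finite relational structures, primitive positive definitions and constructions.
-/

namespace H6PP

/-- A finite relational signature: a finite type of symbols with arities. -/
structure Sig where
  I : Type
  fin : Finite I
  ar : I → ℕ

/-- A structure with finite nonempty domain. -/
structure Str (σ : Sig) where
  D : Type
  fin : Finite D
  ne : Nonempty D
  rel : ∀ i : σ.I, Set (Fin (σ.ar i) → D)

/-- `PP B V P`: the set `P` of assignments of the variables `V` is defined in `B` by a primitive
positive formula (atoms, equalities, conjunction, existential quantification). -/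
inductive PP {σ : Sig} (B : Str σ) : (V : Type) → Set (V → B.D) → Prop
  | atom (V : Type) (i : σ.I) (v : Fin (σ.ar i) → V) : PP B V {a | a ∘ v ∈ B.rel i}
  | eq (V : Type) (j k : V) : PP B V {a | a j = a k}
  | and (V : Type) (P Q : Set (V → B.D)) : PP B V P → PP B V Q → PP B V (P ∩ Q)
  | ex (V : Type) (P : Set (Option V → B.D)) : PP B (Option V) P →
      PP B V {a | ∃ b : B.D, (fun o : Option V => o.elim b a) ∈ P}

/-- `PPC B A`: `A` has a pp-construction from `B`, that is, `A` is homomorphically equivalent
to a structure with domain `B^d`, `d ≥ 1`, whose `k`-ary relations, read as `dk`-ary relations on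
`B`, are pp-definable in `B`. -/
def PPC {σ τ : Sig} (B : Str τ) (A : Str σ) : Prop :=
  ∃ (d : ℕ) (R : ∀ i : σ.I, Set (Fin (σ.ar i) → Fin d → B.D)), 1 ≤ d ∧
    (∀ i, PP B (Fin (σ.ar i) × Fin d) {a | (fun j l => a (j, l)) ∈ R i}) ∧
    (∃ h : A.D → Fin d → B.D, ∀ i, ∀ t ∈ A.rel i, h ∘ t ∈ R i) ∧
    (∃ g : (Fin d → B.D) → A.D, ∀ i, ∀ t ∈ R i, g ∘ t ∈ A.rel i)

/-- The signature with one binary symbol for each element of the finite type `I`. -/
def bin (I : Type) (h : Finite I) : Sig := ⟨I, h, fun _ => 2⟩

/-- The path with two vertices and one edge. -/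
def P2 : Str (bin Unit inferInstance) :=
  ⟨Bool, inferInstance, inferInstance, fun _ => {t : Fin 2 → Bool | t 0 = false ∧ t 1 = true}⟩

/-- The transitive tournament on three vertices. -/
def T3 : Str (bin Unit inferInstance) :=
  ⟨Fin 3, inferInstance, inferInstance, fun _ => {t : Fin 2 → Fin 3 | t 0 < t 1}⟩

/-- The structure on a `G`-set `X` with one binary relation, the graph of `x ↦ g • x`, for each
`g` in `G`. -/
def Act (G X : Type) [Group G] [Finite G] [MulAction G X] [Finite X] [Nonempty X] :
    Str (bin G inferInstance) :=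
  ⟨X, inferInstance, inferInstance, fun g : G => {t : Fin 2 → X | t 1 = g • t 0}⟩

end H6PP
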