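import Mathlib

/-!
A minimal fixed point free action by automorphisms comes from a simple group whose maximal
subgroups are all stabilisers.
-/

namespace H6PP

open MulAction

def Good (G X : Type) [Group G] [MulAction G X] : Prop :=
  IsSimpleGroup G ∧ ∀ M : Subgroup G, IsCoatom M ↔ ∃ x : X, stabilizer G x = M

def HI {Q : Type} (O : ∀ κ : Type, ((κ → Q) → Q) → Prop) (n : ℕ) : Prop :=
  ∀ (G X : Type) [Group G] [Finite G] [MulAction G X] [Finite X] [Nonempty X],
    Good G X → Nat.card X ≤ n →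
      ∃ f, O X f ∧ ∀ (g : G) (t : X → Q), f (fun x => t (g • x)) = f t

theorem fix_core {Q : Type} [Finite Q] {O : ∀ κ : Type, ((κ → Q) → Q) → Prop} {n : ℕ}
    (hn : Nat.card Q ≤ n) (hI : HI O n) (S : Set Q) (G : Type) [Group G] [Finite G]
    [MulAction G Q]
    (hc : ∀ (g : G) κ f, O κ f → ∀ t, g • f t = f (fun k => g • t k))
    (hS : S.Nonempty) (hcl : ∀ κ f, O κ f → ∀ t, (∀ k, t k ∈ S) → f t ∈ S)
    (hinv : ∀ (g : G), ∀ x ∈ S, g • x ∈ S)
    (ha : ∀ M : Subgroup G, M ≠ ⊤ → ∃ x ∈ S, ∀ g ∈ M, g • x = x)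
    (hb : ∀ N : Subgroup G, N.Normal → N ≠ ⊤ → ∀ x ∈ S, ∀ g ∈ N, g • x = x) :
    ∃ x ∈ S, ∀ g : G, g • x = x := by
  by_contra hno
  have hst : ∀ x ∈ S, stabilizer G x ≠ ⊤ := by
    intro x hx h
    exact hno ⟨x, hx, fun g => by
      have : g ∈ stabilizer G x := h ▸ Subgroup.mem_top g
      exact this⟩
  have hco : ∀ M : Subgroup G, IsCoatom M → ∃ x ∈ S, stabilizer G x = M := by
    intro M hM
    obtain ⟨x, hx, h⟩ := ha M hM.1
    refine ⟨x, hx, ?_⟩
    have hle : M ≤ stabilizer G x := fun g hg => h g hg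
    rcases hle.eq_or_lt with e | e
    · exact e.symm
    · exact absurd (hM.2 _ e) (hst x hx)
  let X : SubMulAction G Q :=
    { carrier := {x | x ∈ S ∧ IsCoatom (stabilizer G x)}
      smul_mem' := by
        intro g x hx
        refine ⟨hinv g x hx.1, ?_⟩
        rw [stabilizer_smul_eq_stabilizer_map_conj]
        exact (OrderIso.isCoatom_iff (MulEquiv.mapSubgroup (MulAut.conj g)) _).2 hx.2 }
  have hXne : Nonempty X := by
    obtain ⟨x0, hx0⟩ := hS
    rcases eq_top_or_exists_le_coatom (stabilizer G x0) with h | ⟨M, hM, -⟩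
    · exact absurd h (hst x0 hx0)
    · obtain ⟨x, hx, e⟩ := hco M hM
      exact ⟨⟨x, hx, e ▸ hM⟩⟩
  let H : Subgroup (Equiv.Perm X) := (toPermHom G X).range
  let π : G →* H := (toPermHom G X).rangeRestrict
  have hπ : Function.Surjective π := MonoidHom.rangeRestrict_surjective _
  have hsm : ∀ (g : G) (x : X), ((π g • x : X) : Q) = g • (x : Q) := fun g x => rfl
  have hcm : ∀ x : X, (stabilizer H x).comap π = stabilizer G (x : Q) := by
    intro x
    ext g
    rw [Subgroup.mem_comap, mem_stabilizer_iff, mem_stabilizer_iff, ← hsm]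
    exact Subtype.ext_iff
  have hgood : Good H X := by
    refine ⟨?_, fun M => ⟨fun hM => ?_, ?_⟩⟩
    · haveI : Nontrivial H := by
        by_contra hnt
        rw [not_nontrivial_iff_subsingleton] at hnt
        obtain ⟨x⟩ := hXne
        refine hno ⟨x, x.2.1, fun g => ?_⟩
        rw [← hsm, Subsingleton.elim (π g) 1, one_smul]
      refine ⟨fun N hN => ?_⟩
      by_cases ht : N.comap π = ⊤
      · right
        rw [eq_top_iff]
        intro h _
        obtain ⟨g, rfl⟩ := hπ h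
        have : g ∈ N.comap π := ht ▸ Subgroup.mem_top g
        exact this
      · left
        rw [eq_bot_iff]
        intro h hh
        obtain ⟨g, rfl⟩ := hπ h
        rw [Subgroup.mem_bot]
        apply Subtype.ext
        ext x
        exact hb _ (hN.comap π) ht x x.2.1 g hh
    · obtain ⟨x, hx, e⟩ := hco _ (Subgroup.isCoatom_comap_of_surjective hπ hM)
      refine ⟨⟨x, hx, e ▸ Subgroup.isCoatom_comap_of_surjective hπ hM⟩, ?_⟩
      apply Subgroup.comap_injective hπ
      rw [hcm]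
      exact e
    · rintro ⟨x, rfl⟩
      have hx : IsCoatom ((stabilizer H x).comap π) := by rw [hcm]; exact x.2.2
      refine ⟨fun e => hx.1 (by rw [e, Subgroup.comap_top]), fun K hK => ?_⟩
      apply Subgroup.comap_injective hπ
      rw [Subgroup.comap_top]
      exact hx.2 _ ((Subgroup.comap_lt_comap_of_surjective hπ).2 hK)
  have hcard : Nat.card X ≤ n :=
    (Nat.card_le_card_of_injective (fun x : X => (x : Q)) Subtype.val_injective).trans hn
  obtain ⟨f, hf, hfi⟩ := hI H X hgood hcard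
  refine hno ⟨f (fun x => (x : Q)), hcl _ f hf _ (fun x => x.2.1), fun g => ?_⟩
  rw [hc g _ f hf]
  exact hfi (π g) (fun x => (x : Q))

theorem fix {Q : Type} [Finite Q] {O : ∀ κ : Type, ((κ → Q) → Q) → Prop} {n : ℕ}
    (hn : Nat.card Q ≤ n) (hI : HI O n) : ∀ (a b : ℕ) (S : Set Q) (G : Type) [Group G] [Finite G]
    [MulAction G Q], S.ncard = a → Nat.card G = b →
    (∀ (g : G) κ f, O κ f → ∀ t, g • f t = f (fun k => g • t k)) →
    S.Nonempty → (∀ κ f, O κ f → ∀ t, (∀ k, t k ∈ S) → f t ∈ S) →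
    (∀ (g : G), ∀ x ∈ S, g • x ∈ S) → ∃ x ∈ S, ∀ g : G, g • x = x := by
  intro a
  induction a using Nat.strong_induction_on with
  | _ a iha =>
  intro b
  induction b using Nat.strong_induction_on with
  | _ b ihb =>
  intro S G _ _ _ hSa hGb hc hS hcl hinv
  have ha : ∀ M : Subgroup G, M ≠ ⊤ → ∃ x ∈ S, ∀ g ∈ M, g • x = x := by
    intro M hM
    have hlt : Nat.card M < b := by
      rw [← hGb]
      refine lt_of_le_of_ne (Subgroup.card_le_card_group M) (fun e => hM ?_)
      exact Subgroup.eq_top_of_card_eq M e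
    obtain ⟨x, hx, h⟩ := ihb _ hlt S M hSa rfl (fun g => hc g) hS hcl (fun g => hinv g)
    exact ⟨x, hx, fun g hg => h ⟨g, hg⟩⟩
  by_cases hb : ∀ N : Subgroup G, N.Normal → N ≠ ⊤ → ∀ x ∈ S, ∀ g ∈ N, g • x = x
  · exact fix_core hn hI S G hc hS hcl hinv ha hb
  · push Not at hb
    obtain ⟨N, hN, hNt, x, hx, g, hg, hne⟩ := hb
    let S' : Set Q := {y | y ∈ S ∧ ∀ g ∈ N, g • y = y}
    have hlt : S'.ncard < a := by
      rw [← hSa]
      refine Set.ncard_lt_ncard ⟨fun y hy => hy.1, fun h => hne ((h hx).2 g hg)⟩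
    obtain ⟨y, hy, h⟩ := iha _ hlt _ S' G rfl rfl hc
      (by obtain ⟨y, hy, h⟩ := ha N hNt; exact ⟨y, hy, h⟩)
      (fun κ f hf t ht => ⟨hcl κ f hf t (fun k => (ht k).1), fun u hu => by
        rw [hc u κ f hf]; congr 1; funext k; exact (ht k).2 u hu⟩)
      (fun u y hy => ⟨hinv u y hy.1, fun v hv => by
        have h1 := hy.2 (u⁻¹ * v * u) (by simpa using hN.conj_mem v hv u⁻¹)
        calc v • u • y = u • ((u⁻¹ * v * u) • y) := by
              rw [smul_smul, smul_smul]; congr 1; group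
          _ = u • y := by rw [h1]⟩)
    exact ⟨y, hy.1, h⟩

end H6PP
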