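import Pool.Agent.Lib.MP_8f9fef_lc.Grp7

/-! A finite simple group acting without a fixed point, while every proper subgroup has a fixed
point, is cyclic or needs at least 21 points. -/

namespace Pool.Agent.Lib.MP_8f9fef_lc.Grp21

open MulAction Subgroup

variable {G S : Type} [Group G] [Finite G] [IsSimpleGroup G]

omit [Finite G] in
theorem noncomm (hc : ¬ IsCyclic G) : ¬ ∀ a b : G, a * b = b * a := fun h => hc <| by
  let : CommGroup G := { (inferInstance : Group G) with mul_comm := h }
  exact IsSimpleGroup.isCyclic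

omit [Finite G] in
theorem core_bot (H : Subgroup G) (hH : H ≠ ⊤) : H.normalCore = ⊥ := by
  rcases (inferInstance : H.normalCore.Normal).eq_bot_or_eq_top with h | h
  · exact h
  · exact absurd (top_le_iff.mp (h ▸ H.normalCore_le)) hH

theorem two_mul_dvd (hc : ¬ IsCyclic G) (H : Subgroup G) (hH : H ≠ ⊤) :
    2 * Nat.card G ∣ H.index.factorial := by
  classical
  let : Fintype (G ⧸ H) := Fintype.ofFinite _
  have hinj : Function.Injective (MulAction.toPermHom G (G ⧸ H)) := by
    rw [← MonoidHom.ker_eq_bot_iff, ← Subgroup.normalCore_eq_ker]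
    exact core_bot H hH
  have h1 : H.index ≠ 1 := fun h => hH (Subgroup.index_eq_one.mp h)
  have h0 : H.index ≠ 0 := Subgroup.index_ne_zero_of_finite
  have : Nontrivial (G ⧸ H) := by
    rw [← Finite.one_lt_card_iff_nontrivial]
    change 1 < H.index
    omega
  let ψ : G →* ℤˣ := Equiv.Perm.sign.comp (MulAction.toPermHom G (G ⧸ H))
  rcases (inferInstance : ψ.ker.Normal).eq_bot_or_eq_top with h | h
  · exfalso
    have hi := (MonoidHom.ker_eq_bot_iff ψ).mp h
    exact noncomm hc fun a b => hi (by rw [map_mul, map_mul, mul_comm])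
  · have hm : ∀ g : G, MulAction.toPermHom G (G ⧸ H) g ∈ alternatingGroup (G ⧸ H) := fun g => by
      have : g ∈ ψ.ker := h ▸ Subgroup.mem_top g
      exact Equiv.Perm.mem_alternatingGroup.mpr this
    have hd := Subgroup.card_dvd_of_injective
      ((MulAction.toPermHom G (G ⧸ H)).codRestrict _ hm)
      (fun a b hab => hinj (congrArg Subtype.val hab))
    have := Nat.mul_dvd_mul_left 2 hd
    rwa [two_mul_nat_card_alternatingGroup, Nat.card_perm] at this

theorem sylow_index (hc : ¬ IsCyclic G) [MulAction G S]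
    (hs : ∀ H : Subgroup G, H ≠ ⊤ → ∃ x : S, ∀ g ∈ H, g • x = x)
    (p : ℕ) (hp : p.Prime) (hd : p ∣ Nat.card G) :
    ∃ x : S, (stabilizer G x).index % p = 1 := by
  have : Fact p.Prime := ⟨hp⟩
  obtain ⟨P⟩ : Nonempty (Sylow p G) := Sylow.nonempty
  have hN : normalizer (P : Set G) ≠ ⊤ := by
    intro h
    have hn : (P : Subgroup G).Normal := Subgroup.normalizer_eq_top_iff.mp h
    rcases hn.eq_bot_or_eq_top with h' | h'
    · exact P.ne_bot_of_dvd_card hd h'
    · have hP : IsPGroup p (⊤ : Subgroup G) := h' ▸ P.isPGroup'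
      have hG : IsPGroup p G := hP.of_equiv Subgroup.topEquiv
      have := hG.center_nontrivial
      rcases (inferInstance : (center G).Normal).eq_bot_or_eq_top with h2 | h2
      · exact (Subgroup.nontrivial_iff_ne_bot _).mp this h2
      · exact noncomm hc fun a b => Subgroup.mem_center_iff.mp (h2 ▸ Subgroup.mem_top b) a
  obtain ⟨x, hx⟩ := hs _ hN
  have hle : normalizer (P : Set G) ≤ stabilizer G x := fun g hg => hx g hg
  have hPM : (P : Subgroup G) ≤ stabilizer G x := le_normalizer.trans hle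
  have e1 := card_sylow_modEq_one p G
  have e2 := card_sylow_modEq_one p (stabilizer G x)
  rw [P.card_eq_index_normalizer] at e1
  rw [(P.subtype hPM).card_eq_index_normalizer] at e2
  have e3 : normalizer ((P.subtype hPM : Sylow p (stabilizer G x)) : Set (stabilizer G x)) =
      (normalizer (P : Set G)).subgroupOf (stabilizer G x) :=
    (Subgroup.subgroupOf_normalizer_eq hPM).symm
  rw [e3] at e2
  have e4 := Subgroup.relIndex_mul_index hle
  have e5 : (normalizer (P : Set G)).relIndex (stabilizer G x) ≡ 1 [MOD p] := e2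
  refine ⟨x, ?_⟩
  have e6 := e5.mul_right (stabilizer G x).index
  rw [e4, one_mul] at e6
  have e7 : (stabilizer G x).index ≡ 1 [MOD p] := e6.symm.trans e1
  rw [Nat.ModEq, Nat.mod_eq_of_lt hp.one_lt] at e7
  exact e7

omit [Finite G] in
theorem faith [MulAction G S] (x : S) (hx : stabilizer G x ≠ ⊤) (g : G)
    (hg : ∀ h : G, g • h • x = h • x) : g = 1 := by
  have : g ∈ (stabilizer G x).normalCore := fun b => by
    rw [mem_stabilizer_iff, mul_smul, mul_smul, hg, smul_inv_smul]
  rwa [core_bot _ hx, Subgroup.mem_bot] at this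

theorem hard (hc : ¬ IsCyclic G) [MulAction G S]
    (hs : ∀ H : Subgroup G, H ≠ ⊤ → ∃ x : S, ∀ g ∈ H, g • x = x)
    (x : S) (hx : (stabilizer G x).index = 7) (h8 : 8 ∣ Nat.card G)
    (hall : ∀ s : S, s ∈ orbit G x ∨ (stabilizer G s).index = 8) : False := by
  have hxt : stabilizer G x ≠ ⊤ := fun h => by
    rw [h, Subgroup.index_top] at hx
    omega
  have hN : 2 * Nat.card G ∣ 5040 := by
    have := two_mul_dvd hc _ hxt
    rwa [hx] at this
  have : Fact (Nat.Prime 2) := ⟨Nat.prime_two⟩
  have : Fact (Nat.Prime 7) := ⟨by norm_num⟩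
  obtain ⟨z, hz⟩ := exists_prime_orderOf_dvd_card' 2 ((by norm_num : 2 ∣ 8).trans h8)
  obtain ⟨c, hcc⟩ := exists_prime_orderOf_dvd_card' 7 (hx ▸ (stabilizer G x).index_dvd_card)
  have hzo : ∀ s : S, z • s = s → s ∈ orbit G x := fun s h => by
    refine (hall s).resolve_right fun h' => ?_
    have e1 := (stabilizer G s).card_mul_index
    have e2 := (stabilizer G s).orderOf_dvd_natCard (mem_stabilizer_iff.mpr h)
    rw [hz] at e2
    rw [h'] at e1
    obtain ⟨t, ht⟩ := e2
    rw [ht] at e1
    have e3 : 32 ∣ 2 * Nat.card G := ⟨t, by omega⟩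
    exact absurd (e3.trans hN) (by decide)
  have hc1 : c ≠ 1 := fun h => by
    rw [h, orderOf_one] at hcc
    omega
  have hz1 : z ≠ 1 := fun h => by
    rw [h, orderOf_one] at hz
    omega
  obtain ⟨h0, hh0⟩ : ∃ h : G, c • h • x ≠ h • x := by
    by_contra hcon
    push Not at hcon
    exact hc1 (faith x hxt c hcon)
  set ω := h0 • x with hω
  let e : Fin 7 → S := fun i => c ^ i.val • ω
  have hmod : ∀ n : ℕ, c ^ (n % 7) = c ^ n := fun n => by
    rw [← hcc, pow_mod_orderOf]
  have hadd : ∀ i k : Fin 7, e (i + k) = c ^ k.val • e i := fun i k => by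
    simp only [e]
    rw [Fin.val_add, hmod, add_comm, pow_add, mul_smul]
  have hinj : Function.Injective e := by
    have key : ∀ d : Fin 7, c ^ d.val • ω = ω → d = 0 := fun d hd => by
      by_contra hne
      obtain ⟨k, hk⟩ : ∃ k : Fin 7, d.val * k.val % 7 = 1 :=
        (by decide : ∀ d : Fin 7, ¬ d = 0 → ∃ k : Fin 7, d.val * k.val % 7 = 1) d hne
      have h1 : (c ^ d.val) ^ k.val ∈ stabilizer G ω :=
        (stabilizer G ω).pow_mem (mem_stabilizer_iff.mpr hd) _
      rw [← pow_mul, ← hmod, hk, pow_one] at h1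
      exact hh0 h1
    intro i j hij
    have h1 : e (i + -i) = e (j + -i) := by rw [hadd, hadd, hij]
    have h2 : j + -i = 0 := key _ (by
      have h3 : e (i + -i) = ω := by simp [e]
      rw [h3] at h1
      exact h1.symm)
    exact (add_neg_eq_zero.mp h2).symm
  have hrange : Set.range e = orbit G x := by
    have hcard : (orbit G x).ncard = 7 := by rw [← index_stabilizer, hx]
    refine Set.eq_of_subset_of_ncard_le ?_ ?_ (Set.finite_of_ncard_ne_zero (by omega))
    · rintro _ ⟨i, rfl⟩
      exact ⟨c ^ i.val * h0, by simp [e, hω, mul_smul]⟩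
    · rw [hcard, ← Set.image_univ, Set.ncard_image_of_injective _ hinj, Set.ncard_univ]
      simp
  have hex : ∀ (g : G) (i : Fin 7), ∃ j, e j = g • e i := fun g i => by
    have h1 : e i ∈ orbit G x := hrange ▸ Set.mem_range_self i
    have h2 : g • e i ∈ orbit G x := mem_orbit_of_mem_orbit g h1
    rw [← hrange] at h2
    exact h2
  choose act hact using hex
  have amul : ∀ g h i, act (g * h) i = act g (act h i) := fun g h i =>
    hinj (by rw [hact, hact, hact, mul_smul])
  have aone : ∀ i, act 1 i = i := fun i => hinj (by rw [hact, one_smul])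
  have apow : ∀ k i : Fin 7, act (c ^ k.val) i = i + k := fun k i =>
    hinj (by rw [hact, hadd])
  have ac : ∀ i, act c i = i + 1 := fun i => by
    have := apow 1 i
    simpa using this
  have triv : ∀ g : G, (∀ i, act g i = i) → g = 1 := fun g hg =>
    faith x hxt g fun h => by
      have h1 : h • x ∈ Set.range e := hrange ▸ mem_orbit x h
      obtain ⟨i, hi⟩ := h1
      rw [← hi, ← hact, hg]
  have hzz : z * z = 1 := by
    rw [← pow_two, ← hz, pow_orderOf_eq_one]
  have fixp : ∀ H : Subgroup G, H ≠ ⊤ → z ∈ H → ∃ i, ∀ g ∈ H, act g i = i := fun H hH hzH => by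
    obtain ⟨s, hs'⟩ := hs H hH
    have h1 : s ∈ Set.range e := hrange ▸ hzo s (hs' z hzH)
    obtain ⟨i, rfl⟩ := h1
    exact ⟨i, fun g hg => hinj (by rw [hact, hs' g hg])⟩
  have nogood : ∀ K, ¬ good (act z) K := by
    rintro K ⟨⟨y1, hy1⟩, ⟨y2, hy2⟩, hK, hw⟩
    let H : Subgroup G :=
      { carrier := {g | ∀ y, K (act g y) = K y}
        mul_mem' := fun {a b} ha hb y => by rw [amul, ha, hb]
        one_mem' := fun y => by rw [aone]
        inv_mem' := fun {a} ha y => by rw [← ha (act a⁻¹ y), ← amul, mul_inv_cancel, aone] }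
    have hH : H ≠ ⊤ := fun h => by
      have h1 : c ^ (y2 - y1).val ∈ H := h ▸ Subgroup.mem_top _
      have h2 := h1 y1
      rw [apow, add_sub_cancel, hy1, hy2] at h2
      exact absurd h2 (by decide)
    obtain ⟨i, hi⟩ := fixp H hH hK
    obtain ⟨a, b, h1, h2⟩ := hw i (hi z hK)
    have hword : ∀ y, act (c ^ (-(a + b)).val * (z * (c ^ b.val * (z * c ^ a.val)))) y =
        act z (act z (y + a) + b) + -(a + b) := fun y => by
      rw [amul, amul, amul, amul, apow, apow, apow]
    refine h2 ?_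
    rw [← hword]
    exact hi _ fun y => by rw [hword]; exact h1 y
  rcases fine_of (act z) (fun i => by rw [← amul, hzz, aone]) with h | h | h | ⟨a, -, h⟩
  · exact hz1 (triv z h)
  · have h1 : c * (z * (c * z)) = 1 := triv _ fun i => by
      rw [amul, amul, amul, ac, ac, h]
    have hzi : z⁻¹ = z := inv_eq_of_mul_eq_one_right hzz
    have h2 : z * c * z⁻¹ = c⁻¹ := by
      rw [hzi, mul_assoc]
      exact eq_inv_of_mul_eq_one_right h1
    have hH : normalizer (zpowers c : Set G) ≠ ⊤ := fun ht => by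
      have hn : (zpowers c).Normal := Subgroup.normalizer_eq_top_iff.mp ht
      rcases hn.eq_bot_or_eq_top with h' | h'
      · exact hc1 (Subgroup.zpowers_eq_bot.mp h')
      · exact hc ⟨⟨c, (Subgroup.eq_top_iff' _).1 h'⟩⟩
    have hzH : z ∈ normalizer (zpowers c : Set G) := by
      refine Subgroup.mem_normalizer_fintype fun n hn => ?_
      obtain ⟨k, rfl⟩ := Subgroup.mem_zpowers_iff.mp hn
      rw [← conj_zpow, h2]
      exact (zpowers c).zpow_mem ((zpowers c).inv_mem (mem_zpowers c)) k
    obtain ⟨i, hi⟩ := fixp _ hH hzH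
    have h3 := hi c (le_normalizer (mem_zpowers c))
    rw [ac] at h3
    exact (by decide : ∀ i : Fin 7, i + 1 ≠ i) i h3
  · exact nogood _ h.2
  · exact nogood _ h

theorem grp21 [MulAction G S] [Finite S] (hf : ∀ x : S, ∃ g : G, g • x ≠ x)
    (hs : ∀ H : Subgroup G, H ≠ ⊤ → ∃ x : S, ∀ g ∈ H, g • x = x) :
    IsCyclic G ∨ 21 ≤ Nat.card S := by
  by_contra hcon
  push Not at hcon
  obtain ⟨hc, hS⟩ := hcon
  have hne : ∀ x : S, stabilizer G x ≠ ⊤ := fun x h => by
    obtain ⟨g, hg⟩ := hf x
    exact hg (mem_stabilizer_iff.mp (h ▸ Subgroup.mem_top g))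
  let n : S → ℕ := fun x => (stabilizer G x).index
  have hn : ∀ x, n x = (orbit G x).ncard := fun x => index_stabilizer G x
  have hdiv : ∀ x, n x ∣ Nat.card G := fun x => (stabilizer G x).index_dvd_card
  have hfac : ∀ x, 2 * Nat.card G ∣ (n x).factorial := fun x => two_mul_dvd hc _ (hne x)
  have h2 : ∀ x, 2 ≤ n x := fun x => by
    have h1 : n x ≠ 1 := fun h => hne x (Subgroup.index_eq_one.mp h)
    have h0 : n x ≠ 0 := Subgroup.index_ne_zero_of_finite
    omega
  have hmod : ∀ p, p.Prime → p ∣ Nat.card G → ∃ x, n x % p = 1 := sylow_index hc hs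
  have hle : ∀ A : Set S, A.ncard ≤ 20 := fun A => by
    have := Set.ncard_le_ncard (Set.subset_univ A)
    rw [Set.ncard_univ] at this
    omega
  have hdis : ∀ x y : S, orbit G x ≠ orbit G y → Disjoint (orbit G x) (orbit G y) :=
    fun x y h => (orbit.eq_or_disjoint x y).resolve_left h
  have hor : ∀ x y : S, n x ≠ n y → orbit G x ≠ orbit G y := fun x y h h' =>
    h (by rw [hn, hn, h'])
  have two : ∀ x y : S, n x ≠ n y → n x + n y ≤ 20 := fun x y h => by
    rw [hn, hn, ← Set.ncard_union_eq (hdis x y (hor x y h))]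
    exact hle _
  have three : ∀ x y w : S, orbit G x ≠ orbit G y → orbit G x ≠ orbit G w →
      orbit G y ≠ orbit G w → n x + n y + n w ≤ 20 := fun x y w h1 h2 h3 => by
    rw [hn, hn, hn, ← Set.ncard_union_eq (hdis x y h1),
      ← Set.ncard_union_eq (Set.disjoint_union_left.mpr ⟨hdis x w h2, hdis y w h3⟩)]
    exact hle _
  have three' : ∀ x y w : S, n x ≠ n y → n x ≠ n w → n y ≠ n w → n x + n y + n w ≤ 20 :=
    fun x y w h1 h2 h3 => three x y w (hor _ _ h1) (hor _ _ h2) (hor _ _ h3)
  obtain ⟨x0, -⟩ := hs ⊥ bot_ne_top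
  have : Nonempty S := ⟨x0⟩
  obtain ⟨x, hx⟩ := Finite.exists_min n
  have hdd : ∀ y, 2 * n y ∣ (n x).factorial := fun y =>
    (Nat.mul_dvd_mul_left 2 (hdiv y)).trans (hfac x)
  have hp : ∀ y p, p.Prime → p ∣ n y → ∃ w, n w % p = 1 := fun y p hp h =>
    hmod p hp (h.trans (hdiv y))
  have ha9 : n x ≤ 9 := by
    obtain ⟨y, hy⟩ := hp x _ (Nat.minFac_prime (by have := h2 x; omega)) (Nat.minFac_dvd _)
    have hne' : n x ≠ n y := fun h => by
      rw [← h, Nat.mod_eq_zero_of_dvd (Nat.minFac_dvd _)] at hy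
      omega
    have := two x y hne'
    have := hx y
    omega
  have hx2 := h2 x
  have p2 := Nat.prime_two
  have p3 := Nat.prime_three
  have p5 := Nat.prime_five
  have p7 : Nat.Prime 7 := by norm_num
  obtain ⟨a, ha⟩ : ∃ a, n x = a := ⟨_, rfl⟩
  rw [ha] at hdd ha9 hx2 hx
  have step : ∀ y p, p.Prime → p ∣ n y → ∃ w b, n w = b ∧ b % p = 1 ∧ a ≤ b ∧
      2 * b ∣ a.factorial ∧ (a ≠ b → a + b ≤ 20) ∧
      (a ≠ n y → a ≠ b → n y ≠ b → a + n y + b ≤ 20) := fun y p hp' h => by
    obtain ⟨w, hw⟩ := hp y p hp' h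
    refine ⟨w, _, rfl, hw, hx w, hdd w, ?_, ?_⟩
    · rw [← ha]; exact two x w
    · rw [← ha]; exact three' x y w
  interval_cases a
  · have := hdd x
    rw [ha] at this
    exact absurd this (by decide)
  · obtain ⟨y, b, -, h1, h3, h4, h5, -⟩ := step x 3 p3 (by rw [ha])
    have : b ≤ 17 := by omega
    interval_cases b <;> first | omega | exact absurd h4 (by decide)
  · obtain ⟨y, b, -, h1, h3, h4, h5, -⟩ := step x 2 p2 (by rw [ha]; norm_num)
    have : b ≤ 16 := by omega
    interval_cases b <;> first | omega | exact absurd h4 (by decide)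
  · obtain ⟨y, b, hb, h1, h3, h4, h5, -⟩ := step x 5 p5 (by rw [ha])
    have hb6 : b = 6 := by
      have : b ≤ 15 := by omega
      interval_cases b <;> first | omega | exact absurd h4 (by decide)
    obtain ⟨w, d, -, g1, g3, g4, -, g6⟩ := step y 3 p3 (by rw [hb, hb6]; norm_num)
    rw [hb, hb6] at g6
    have : d ≤ 9 := by omega
    interval_cases d <;> first | omega | exact absurd g4 (by decide)
  · obtain ⟨y, b, hb, h1, h3, h4, h5, -⟩ := step x 2 p2 (by rw [ha]; norm_num)
    have hb9 : b = 9 := by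
      have : b ≤ 14 := by omega
      interval_cases b <;> first | omega | exact absurd h4 (by decide)
    obtain ⟨w, d, -, g1, g3, g4, -, g6⟩ := step y 3 p3 (by rw [hb, hb9]; norm_num)
    rw [hb, hb9] at g6
    omega
  · obtain ⟨y, b, hb, h1, h3, h4, h5, -⟩ := step x 7 p7 (by rw [ha])
    have hb8 : n y = 8 := by omega
    refine hard hc hs x ha (hb8 ▸ hdiv y) fun s => ?_
    by_contra hcon
    push Not at hcon
    obtain ⟨g1, g2⟩ := hcon
    have g3 : orbit G x ≠ orbit G s := fun h => g1 (h ▸ mem_orbit_self s)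
    have g4 := three x y s (hor _ _ (by omega)) g3 (hor _ _ (by rw [hb8]; exact Ne.symm g2))
    have := hx s
    omega
  · obtain ⟨y, b, hb, h1, h3, h4, h5, -⟩ := step x 2 p2 (by rw [ha]; norm_num)
    have hb9 : b = 9 := by
      have : b ≤ 12 := by omega
      interval_cases b <;> first | omega | exact absurd h4 (by decide)
    obtain ⟨w, d, -, g1, g3, g4, -, g6⟩ := step y 3 p3 (by rw [hb, hb9]; norm_num)
    rw [hb, hb9] at g6
    omega
  · obtain ⟨y, b, hb, h1, h3, h4, h5, -⟩ := step x 3 p3 (by rw [ha]; norm_num)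
    have hb10 : b = 10 := by omega
    obtain ⟨w, d, -, g1, g3, g4, -, g6⟩ := step y 5 p5 (by rw [hb, hb10]; norm_num)
    rw [hb, hb10] at g6
    omega

end Pool.Agent.Lib.MP_8f9fef_lc.Grp21
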