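import Mathlib

/-! A finite check on involutions of seven points. -/

namespace Pool.Agent.Lib.MP_8f9fef_lc.Grp21

def good (z : Fin 7 → Fin 7) (K : Fin 7 → Bool) : Prop :=
  (∃ y, K y = true) ∧ (∃ y, K y = false) ∧ (∀ y, K (z y) = K y) ∧
    ∀ x, z x = x → ∃ i j : Fin 7, (∀ y, K (z (z (y + i) + j) + -(i + j)) = K y) ∧
      z (z (x + i) + j) + -(i + j) ≠ x

instance (z : Fin 7 → Fin 7) (K : Fin 7 → Bool) : Decidable (good z K) := by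
  unfold good; infer_instance

def fine (z : Fin 7 → Fin 7) : Prop :=
  (∀ x, z x = x) ∨ (∀ x, z (z x + 1) + 1 = x) ∨ 
    ((∃ x, z x = x ∧ ∃ y, x < y ∧ z y = y) ∧ good z (fun y => decide (z y = y))) ∨
    ∃ a, a < z a ∧ good z (fun y => decide (y = a) || decide (y = z a))

instance (z : Fin 7 → Fin 7) : Decidable (fine z) := by
  unfold fine; infer_instance

def tab (a0 a1 a2 a3 a4 a5 a6 : Fin 7) (y : Fin 7) : Fin 7 :=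
  match y with
  | 0 => a0 | 1 => a1 | 2 => a2 | 3 => a3 | 4 => a4 | 5 => a5 | 6 => a6

set_option synthInstance.maxSize 4096 in
theorem chk : ∀ a0 a1 : Fin 7, (a0 = 1 ↔ a1 = 0) → a1 ≠ a0 →
    ∀ a2 : Fin 7, (a0 = 2 ↔ a2 = 0) → (a1 = 2 ↔ a2 = 1) →
    ∀ a3 : Fin 7, (a0 = 3 ↔ a3 = 0) → (a1 = 3 ↔ a3 = 1) → (a2 = 3 ↔ a3 = 2) →
    ∀ a4 : Fin 7, (a0 = 4 ↔ a4 = 0) → (a1 = 4 ↔ a4 = 1) → (a2 = 4 ↔ a4 = 2) →
      (a3 = 4 ↔ a4 = 3) →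
    ∀ a5 : Fin 7, (a0 = 5 ↔ a5 = 0) → (a1 = 5 ↔ a5 = 1) → (a2 = 5 ↔ a5 = 2) →
      (a3 = 5 ↔ a5 = 3) → (a4 = 5 ↔ a5 = 4) →
    ∀ a6 : Fin 7, (a0 = 6 ↔ a6 = 0) → (a1 = 6 ↔ a6 = 1) → (a2 = 6 ↔ a6 = 2) →
      (a3 = 6 ↔ a6 = 3) → (a4 = 6 ↔ a6 = 4) → (a5 = 6 ↔ a6 = 5) →
      fine (tab a0 a1 a2 a3 a4 a5 a6) := by
  decide +kernel

theorem fine_of (z : Fin 7 → Fin 7) (hz : ∀ x, z (z x) = x) : fine z := by
  have e : ∀ a b : Fin 7, z a = b ↔ z b = a := fun a b =>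
    ⟨fun h => by rw [← h, hz], fun h => by rw [← h, hz]⟩
  have h01 : z 1 ≠ z 0 := fun h => by
    have := congrArg z h
    rw [hz, hz] at this
    exact absurd this (by decide)
  have := chk (z 0) (z 1) (e _ _) h01 (z 2) (e _ _) (e _ _) (z 3) (e _ _) (e _ _) (e _ _)
    (z 4) (e _ _) (e _ _) (e _ _) (e _ _) (z 5) (e _ _) (e _ _) (e _ _) (e _ _) (e _ _)
    (z 6) (e _ _) (e _ _) (e _ _) (e _ _) (e _ _) (e _ _)
  have ht : tab (z 0) (z 1) (z 2) (z 3) (z 4) (z 5) (z 6) = z := by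
    funext y
    fin_cases y <;> rfl
  rwa [ht] at this

end Pool.Agent.Lib.MP_8f9fef_lc.Grp21
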