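import Pool.Agent.Lib.MP_8f9fef_lc.Basic
import Pool.Agent.Lib.MP_8f9fef_lc.Sec

/-!
Assembly: quasi Maltsev identities, invariance identities, cores.
-/

namespace H6PP

variable {σ : Sig}

def SQ : Set ((Fin 3 → Bool) × (Fin 3 → Bool)) :=
  {(![true, false, false], fun _ => true), (![false, false, true], fun _ => true)}

def SG (G X : Type) [Group G] [MulAction G X] : Set ((X → X) × (X → X)) :=
  {p | ∃ g : G, p = (fun x => g • x, id)}

theorem pol_P2 {κ : Type} (f : (κ → Bool) → Bool) :
    Pol P2 f ↔ f (fun _ => false) = false ∧ f (fun _ => true) = true := by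
  constructor
  · intro h
    exact h () (fun _ => ![false, true]) (fun _ => ⟨rfl, rfl⟩)
  · rintro ⟨h0, h1⟩ i s hs
    exact ⟨(congrArg f (funext fun k => (hs k).1)).trans h0,
      (congrArg f (funext fun k => (hs k).2)).trans h1⟩

theorem has_P2_SQ : Has P2 SQ := by
  refine ⟨fun t : Fin 3 → Bool => xor (t 0) (xor (t 1) (t 2)), (pol_P2 _).2 ⟨rfl, rfl⟩, ?_⟩
  rintro p (rfl | rfl) (t : Bool → Bool)
  · show xor (t true) (xor (t false) (t false)) = xor (t true) (xor (t true) (t true))
    simp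
  · show xor (t false) (xor (t false) (t true)) = xor (t true) (xor (t true) (t true))
    cases t true <;> cases t false <;> rfl

theorem has_P2_SG (G X : Type) [Group G] [MulAction G X] [Nonempty X] : Has P2 (SG G X) := by
  classical
  refine ⟨fun t : X → Bool => decide (∀ x, t x = true), (pol_P2 _).2 ⟨by simp, by simp⟩, ?_⟩
  rintro p ⟨g, rfl⟩ (t : X → Bool)
  show decide (∀ x, t (g • x) = true) = decide (∀ x, t x = true)
  rw [decide_eq_decide]
  exact ⟨fun h x => by simpa using h (g⁻¹ • x), fun h x => h _⟩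

theorem not_T3 : ¬ Has T3 SQ := by
  rintro ⟨(f : (Fin 3 → Fin 3) → Fin 3), hf, h⟩
  let w : Fin 3 → Fin 2 → Fin 3 := ![![0, 1], ![0, 2], ![1, 2]]
  have hw : ∀ k, w k 0 < w k 1 := by decide
  have e : f (fun k => w k 0) < f (fun k => w k 1) := hf () w hw
  let c : Bool → Fin 3 := fun b => cond b 1 2
  let d : Bool → Fin 3 := fun b => cond b 1 0
  have e1 : f (c ∘ ![true, false, false]) = f (fun _ => 1) := h _ (Or.inl rfl) c
  have e2 : f (d ∘ ![false, false, true]) = f (fun _ => 1) := h _ (Or.inr rfl) d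
  have e3 : (fun k => w k 0) = d ∘ ![false, false, true] := by decide
  have e4 : (fun k => w k 1) = c ∘ ![true, false, false] := by decide
  rw [e3, e4, e1, e2] at e
  exact lt_irrefl _ e

theorem not_Act (G X : Type) [Group G] [Finite G] [MulAction G X] [Finite X] [Nonempty X]
    (hg : Good G X) : ¬ Has (Act G X) (SG G X) := by
  rintro ⟨f, hf, h⟩
  have hc : IsCoatom (MulAction.stabilizer G (show X from f id)) := (hg.2 _).2 ⟨_, rfl⟩
  apply hc.1
  rw [eq_top_iff]
  intro g _
  have e := hf g (fun x : X => ![x, g • x]) (fun _ => rfl)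
  exact (Eq.symm e).trans (h _ ⟨g, rfl⟩ id)

theorem no_qm (B : Str σ) (hB : ¬ Has B SQ) : PPC B T3 := by
  classical
  let E : ((Fin 3 → B.D) → B.D) → ((Fin 3 → B.D) → B.D) → Prop := fun f f' =>
    ∃ g : (T3.rel () → B.D) → B.D, Pol B g ∧ (∀ x, f x = g (fun r => x (r.1 (0 : Fin 2)))) ∧
      ∀ x, f' x = g (fun r => x (r.1 (1 : Fin 2)))
  have np : ∀ f0 f1 f2 f3, E f0 f1 → E f1 f2 → E f2 f3 → False := by
    rintro f0 f1 f2 f3 ⟨g1, -, -, a⟩ ⟨g2, hg, b, c⟩ ⟨g3, -, d, -⟩
    let ix : Fin 3 → Fin 3 → Fin 3 := fun u v => if u = 1 then 2 else if v = 1 then 0 else 1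
    have k : ∀ u v : Fin 3, u < v →
        ![true, false, false] (ix u v) = ![true, true, false] v ∧ ![true, true, false] u = true ∧
        ![false, false, true] (ix u v) = ![false, true, true] u ∧ ![false, true, true] v = true := by
      decide
    refine hB ⟨fun t => g2 (fun r => t (ix (r.1 (0 : Fin 2)) (r.1 (1 : Fin 2)))),
      fun i s hs => hg i _ (fun r => hs _), ?_⟩
    rintro p (rfl | rfl) t
    · have e1 := (c (t ∘ ![true, true, false])).symm.trans (d _)
      have e2 := (c (fun _ => t true)).symm.trans (d _)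
      refine Eq.trans (congrArg g2 (funext fun r => congrArg t (k _ _ r.2).1)) (e1.trans ?_)
      exact Eq.trans (congrArg g3 (funext fun r => congrArg t (k _ _ r.2).2.1)) e2.symm
    · have e1 := (b (t ∘ ![false, true, true])).symm.trans (a _)
      have e2 := (b (fun _ => t true)).symm.trans (a _)
      refine Eq.trans (congrArg g2 (funext fun r => congrArg t (k _ _ r.2).2.2.1)) (e1.trans ?_)
      exact Eq.trans (congrArg g1 (funext fun r => congrArg t (k _ _ r.2).2.2.2)) e2.symm
  let γ : ((Fin 3 → B.D) → B.D) → Fin 3 := fun f =>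
    if ∃ f0 f1, E f0 f1 ∧ E f1 f then 2 else if ∃ f0, E f0 f then 1 else 0
  have key : ∀ f f', E f f' → γ f < γ f' := by
    intro f f' e
    have n2 : ¬ ∃ f0 f1, E f0 f1 ∧ E f1 f := fun ⟨f0, f1, a, b⟩ => np _ _ _ _ a b e
    by_cases n1 : ∃ f0, E f0 f
    · have : ∃ f0 f1, E f0 f1 ∧ E f1 f' := by obtain ⟨f0, a⟩ := n1; exact ⟨f0, f, a, e⟩
      simp only [γ, if_neg n2, if_pos n1, if_pos this]
      decide
    · have : ∃ f0, E f0 f' := ⟨f, e⟩
      simp only [γ, if_neg n2, if_neg n1, if_pos this]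
      split_ifs <;> decide
  exact free B T3 γ (fun i g hg => key _ _ ⟨g, hg, fun _ => rfl, fun _ => rfl⟩)

theorem equivar (G X Y : Type) [Group G] [Finite G] [MulAction G X] [Nonempty X] [MulAction G Y]
    (hg : Good G X) : ∃ γ : Y → X, ∀ y : Y, (∃ g : G, g • y ≠ y) → ∀ g : G, γ (g • y) = g • γ y := by
  let rep : Y → Y := fun y => (Quotient.mk (MulAction.orbitRel G Y) y).out
  have h1 : ∀ y, ∃ g : G, g • rep y = y := fun y =>
    (MulAction.orbitRel G Y).symm (Quotient.exact (Quotient.out_eq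
      (Quotient.mk (MulAction.orbitRel G Y) y)))
  choose c hc using h1
  have h2 : ∀ r : Y, ∃ x : X, (∃ g : G, g • r ≠ r) → ∀ g : G, g • r = r → g • x = x := by
    intro r
    rcases eq_top_or_exists_le_coatom (MulAction.stabilizer G r) with h | ⟨M, hM, hle⟩
    · refine ⟨Classical.arbitrary _, fun ⟨g, hg⟩ => absurd ?_ hg⟩
      have : g ∈ MulAction.stabilizer G r := h ▸ Subgroup.mem_top g
      exact this
    · obtain ⟨x, rfl⟩ := (hg.2 M).1 hM
      exact ⟨x, fun _ g e => hle e⟩
  choose x hx using h2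
  refine ⟨fun y => c y • x (rep y), fun y hy g => ?_⟩
  have e : rep (g • y) = rep y := congrArg Quotient.out (Quotient.sound ⟨g, rfl⟩)
  have hn : ∃ g : G, g • rep y ≠ rep y := by
    by_contra hn
    push Not at hn
    obtain ⟨k, hk⟩ := hy
    apply hk
    rw [← hc y, hn, hn]
  have e2 := hx (rep y) hn ((c (g • y))⁻¹ * g * c y) (by
    rw [mul_smul, mul_smul, hc y, inv_smul_eq_iff, ← e, hc])
  show c (g • y) • x (rep (g • y)) = g • c y • x (rep y)
  rw [mul_smul, mul_smul, inv_smul_eq_iff] at e2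
  rw [e, e2]

theorem no_inv (B : Str σ) (G X : Type) [Group G] [Finite G] [MulAction G X] [Finite X]
    [Nonempty X] (hg : Good G X) (hB : ¬ Has B (SG G X)) : PPC B (Act G X) := by
  letI : MulAction G ((X → B.D) → B.D) :=
    { smul := fun g f t => f (fun x => t (g • x))
      one_smul := fun f => by
        funext t
        exact congrArg f (funext fun x => congrArg t (one_smul G x))
      mul_smul := fun g k f => by
        funext t
        exact congrArg f (funext fun x => congrArg t (mul_smul g k x)) }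
  obtain ⟨γ, hγ⟩ := equivar G X ((X → B.D) → B.D) hg
  refine free B (Act G X) γ (fun (g : G) h hh => ?_)
  have hn : ∃ k : G, k • (fun x : X → B.D => h (fun r => x (r.1 (0 : Fin 2))))
      ≠ (fun x : X → B.D => h (fun r => x (r.1 (0 : Fin 2)))) := by
    by_contra hn
    push Not at hn
    refine hB ⟨fun x : X → B.D => h (fun r => x (r.1 (0 : Fin 2))),
      fun i s hs => hh i _ (fun r => hs _), ?_⟩
    rintro p ⟨k, rfl⟩ t
    exact congrFun (hn k) t
  refine Eq.trans (congrArg γ ?_) (hγ _ hn g)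
  funext x
  exact congrArg h (funext fun r => congrArg x r.2)

theorem idem_of_core {B : Str σ} (hc : ∀ e, Hom B B e → Function.Injective e) {κ μ : Type}
    {S : Set ((κ → μ) × (κ → μ))} (h : Has B S) : ∃ f : (κ → B.D) → B.D,
      (Pol B f ∧ ∀ x, f (fun _ => x) = x) ∧ ∀ p ∈ S, ∀ t : μ → B.D, f (t ∘ p.1) = f (t ∘ p.2) := by
  haveI := B.fin
  obtain ⟨f, hf, hS⟩ := h
  have hu : Hom B B (fun x => f (fun _ => x)) := fun i t ht => hf i (fun _ => t) (fun _ => ht)
  let u : Equiv.Perm B.D := Equiv.ofBijective _ (Finite.injective_iff_bijective.1 (hc _ hu))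
  have hp : ∀ n : ℕ, Hom B B (u ^ n : Equiv.Perm B.D) := by
    intro n
    induction n with
    | zero => exact fun i t ht => ht
    | succ n ih => intro i t ht; rw [pow_succ]; exact ih i _ (hu i t ht)
  refine ⟨fun t => (u ^ (orderOf u - 1) : Equiv.Perm B.D) (f t),
    ⟨fun i s hs => hp _ i _ (hf i s hs), fun x => ?_⟩, fun p hp t => congrArg _ (hS p hp t)⟩
  show (u ^ (orderOf u - 1) * u) x = x
  rw [← pow_succ, Nat.sub_add_cancel (orderOf_pos u), pow_orderOf_eq_one]
  rfl

def All (B : Str σ) : Prop :=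
  ∀ (G X : Type) [Group G] [Finite G] [MulAction G X] [Finite X] [Nonempty X],
    Good G X → Nat.card X ≤ Nat.card B.D → Has B (SG G X)

theorem core_main (B : Str σ) (hc : ∀ e, Hom B B e → Function.Injective e) (hq : Has B SQ)
    (ha : All B) : PPC P2 B := by
  classical
  haveI := B.fin
  obtain ⟨m, hm, hS⟩ := idem_of_core hc hq
  let A : Alg B.D :=
    { C := fun _ f => Pol B f ∧ ∀ x, f (fun _ => x) = x
      idem := fun _ _ h => h.2
      m := fun x y z => m ![x, y, z]
      mC := by
        have e : (fun t : Fin 3 → B.D => m ![t 0, t 1, t 2]) = m := by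
          funext t; congr 1; funext k; fin_cases k <;> rfl
        rw [e]; exact hm
      m1 := fun x y => by
        refine Eq.trans ?_ ((hS _ (Or.inl rfl) (fun b => cond b x y)).trans (hm.2 x))
        congr 1; funext k; fin_cases k <;> rfl
      m2 := fun x y => by
        refine Eq.trans ?_ ((hS _ (Or.inr rfl) (fun b => cond b x y)).trans (hm.2 x))
        congr 1; funext k; fin_cases k <;> rfl
      hi := fun G X _ _ _ _ _ hg hX => by
        obtain ⟨f, hf, h⟩ := idem_of_core hc (ha G X hg hX)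
        exact ⟨f, hf, fun g t => h _ ⟨g, rfl⟩ t⟩ }
  obtain ⟨s, hs⟩ := sec A
  let s' : (Set B.D → Prop) → B.D := fun f =>
    if h : f Set.univ ∧ ¬ f ∅ then s (ob A f h.1 h.2) else B.ne.some
  refine free P2 B (fun F : (B.D → Bool) → Bool =>
    s' (fun U => F (fun x => decide (x ∈ U)) = true)) (fun i (g0 : (B.rel i → Bool) → Bool) hg => ?_)
  obtain ⟨g1, g2⟩ := (pol_P2 g0).1 hg
  let g : Set (B.rel i) → Prop := fun U => g0 (fun b => decide (b ∈ U)) = true
  have h1 : g Set.univ := by simpa [g] using g2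
  have h0 : ¬ g ∅ := by simpa [g] using g1
  refine decomp (A := A) (fun κ f hf t ht => hf.1 i t ht) ?_ _ (fun j l => ?_)
  · by_contra hn
    have : IsEmpty (B.rel i) := ⟨fun r => hn ⟨r.1, r.2⟩⟩
    exact h0 (Set.eq_empty_of_isEmpty (Set.univ : Set (B.rel i)) ▸ h1)
  · obtain ⟨b, p, q⟩ := link hs g h1 h0 (fun r => r.1 j) (fun r => r.1 l) (by
      intro κ f hf u v h
      choose b p q using h
      exact ⟨⟨_, hf.1 i (fun k => (b k).1) (fun k => (b k).2)⟩, congrArg f (funext p),
        congrArg f (funext q)⟩)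
    have k : ∀ (f : Set B.D → Prop) (a : f Set.univ) (b : ¬ f ∅), s' f = s (ob A f a b) :=
      fun f a b => dif_pos (And.intro a b)
    exact ⟨b.1, b.2, p.trans (k _ _ _).symm, q.trans (k _ _ _).symm⟩

theorem main : ∀ (n : ℕ) (B : Str σ), Nat.card B.D = n → Has B SQ → All B → PPC P2 B := by
  intro n
  induction n using Nat.strong_induction_on with
  | _ n ih =>
  intro B hn hq ha
  by_cases hc : ∀ e, Hom B B e → Function.Injective e
  · exact core_main B hc hq ha
  push Not at hc
  obtain ⟨e, he, hne⟩ := hc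
  haveI := B.fin
  haveI := B.ne
  let C : Str σ := ⟨Set.range e, inferInstance, inferInstance,
    fun i => {t | Subtype.val ∘ t ∈ B.rel i}⟩
  have h1 : Hom B C (fun x => ⟨e x, x, rfl⟩) := fun i t ht => he i t ht
  have h2 : Hom C B Subtype.val := fun i t ht => ht
  have hlt : Nat.card C.D < Nat.card B.D := by
    have : ¬ Function.Surjective e := fun h => hne (Finite.injective_iff_surjective.2 h)
    simp only [Function.Surjective, not_forall] at this
    obtain ⟨y, hy⟩ := this
    exact Finite.card_subtype_lt (p := fun y => y ∈ Set.range e) hy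
  exact (ih _ (hn ▸ hlt) C rfl (hq.equiv h1 h2)
    (fun G X _ _ _ _ _ hg hX => (ha G X hg (hX.trans hlt.le)).equiv h1 h2)).equiv h2 h1

theorem final (B : Str σ) : ¬ PPC P2 B ↔ PPC B T3 ∨
    ∃ (G X : Type) (_ : Group G) (_ : Finite G) (_ : MulAction G X) (_ : Finite X)
      (_ : Nonempty X), Good G X ∧ Nat.card X ≤ Nat.card B.D ∧ PPC B (Act G X) := by
  constructor
  · intro h
    by_contra hn
    rw [not_or] at hn
    refine h (main _ B rfl (by_contra fun hq => hn.1 (no_qm B hq)) ?_)
    intro G X _ _ _ _ _ hg hX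
    exact by_contra fun hq => hn.2 ⟨G, X, _, _, _, _, _, hg, hX, no_inv B G X hg hq⟩
  · rintro (h | ⟨G, X, _, _, _, _, _, hg, -, h⟩) h2
    · exact not_T3 (h.has (h2.has has_P2_SQ))
    · exact not_Act G X hg (h.has (h2.has (has_P2_SG G X)))

end H6PP
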