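import Pool.Agent.Lib.MP_8f9fef_lc.Alg

/-!
Objects (a quotient of a subalgebra with an idempotent Boolean function on its subsets) and
functional links between them.
-/

namespace H6PP

variable {α : Type} {A : Alg α}

structure Obj (A : Alg α) where
  θ : α → α → Prop
  f : Set α → Prop
  per : PER A θ
  top : f {x | θ x x}
  bot : ¬ f ∅

def Sat (θ : α → α → Prop) (U : Set α) : Prop :=
  (∀ x ∈ U, θ x x) ∧ ∀ x y, θ x y → x ∈ U → y ∈ U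

structure FL (o o' : Obj A) (ρ : α → α → Prop) : Prop where
  cl : A.Cl2 ρ
  dl : ∀ {x y}, ρ x y → o.θ x x
  dr : ∀ {x y}, ρ x y → o'.θ y y
  sat : ∀ {x x' y y'}, o.θ x x' → ρ x y → o'.θ y y' → ρ x' y'
  fn : ∀ {x y y'}, ρ x y → ρ x y' → o'.θ y y'
  sup : ∀ U, Sat o.θ U → (o.f U ↔ o.f (U ∩ {x | ∃ y, ρ x y}))
  push : ∀ U, Sat o'.θ U → (o'.f U ↔ o.f {x | ∃ y ∈ U, ρ x y})

structure Sup (o : Obj A) (W : Set α) : Prop where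
  cl : A.Cl1 (fun x => x ∈ W)
  sat : Sat o.θ W
  sup : ∀ U, Sat o.θ U → (o.f U ↔ o.f (U ∩ W))

theorem Obj.ne (o : Obj A) : ∃ x, o.θ x x := by
  by_contra h
  push Not at h
  have e : {x | o.θ x x} = ∅ := by ext x; simpa using h x
  exact o.bot (e ▸ o.top)

theorem Obj.sat_dom (o : Obj A) : Sat o.θ {x | o.θ x x} :=
  ⟨fun _ h => h, fun _ _ h _ => o.per.r h⟩

theorem Sat.inter {θ : α → α → Prop} {U W : Set α} (h : Sat θ U) (h' : Sat θ W) :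
    Sat θ (U ∩ W) :=
  ⟨fun x hx => h.1 x hx.1, fun x y e hx => ⟨h.2 x y e hx.1, h'.2 x y e hx.2⟩⟩

def Obj.res (o : Obj A) (W : Set α) (h : Sup o W) : Obj A where
  θ := fun x y => o.θ x y ∧ x ∈ W
  f := o.f
  per := ⟨fun κ f hf s t hs => ⟨o.per.cl κ f hf s t (fun k => (hs k).1),
      h.cl κ f hf s (fun k => (hs k).2)⟩,
    fun e => ⟨o.per.symm e.1, h.sat.2 _ _ e.1 e.2⟩, fun e e' => ⟨o.per.trans e.1 e'.1, e.2⟩⟩
  top := (h.sup _ o.sat_dom).1 o.top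
  bot := o.bot

theorem sat_res {o : Obj A} {W U : Set α} {h : Sup o W} (hU : Sat (o.res W h).θ U) :
    Sat o.θ U ∧ U ⊆ W :=
  ⟨⟨fun x hx => (hU.1 x hx).1, fun x y e hx => hU.2 x y ⟨e, (hU.1 x hx).2⟩ hx⟩,
    fun x hx => (hU.1 x hx).2⟩

theorem FL.sat_pre {o o' : Obj A} {ρ : α → α → Prop} (h : FL o o' ρ) (U : Set α) :
    Sat o.θ {x | ∃ y ∈ U, ρ x y} :=
  ⟨fun _ ⟨_, _, e⟩ => h.dl e, fun _ _ e ⟨y, hy, r⟩ => ⟨y, hy, h.sat e r (h.dr r)⟩⟩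

theorem FL.sat_img {o o' : Obj A} {ρ : α → α → Prop} (h : FL o o' ρ) (U : Set α) :
    Sat o'.θ {y | ∃ x ∈ U, ρ x y} :=
  ⟨fun _ ⟨_, _, e⟩ => h.dr e, fun _ _ e ⟨x, hx, r⟩ => ⟨x, hx, h.sat (h.dl r) r e⟩⟩

theorem FL.refl (o : Obj A) : FL o o o.θ := by
  refine ⟨o.per.cl, o.per.l, o.per.r, fun a b c => o.per.trans (o.per.symm a) (o.per.trans b c),
    fun a b => o.per.trans (o.per.symm a) b, fun U hU => ?_, fun U hU => ?_⟩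
  · have e : U ∩ {x | ∃ y, o.θ x y} = U := Set.ext fun x =>
      ⟨fun a => a.1, fun a => ⟨a, x, hU.1 x a⟩⟩
    rw [e]
  · have e : {x | ∃ y ∈ U, o.θ x y} = U := Set.ext fun x =>
      ⟨fun ⟨y, hy, e⟩ => hU.2 y x (o.per.symm e) hy, fun hx => ⟨x, hx, hU.1 x hx⟩⟩
    rw [e]

theorem FL.toRes {o : Obj A} {W : Set α} (h : Sup o W) :
    FL o (o.res W h) (o.res W h).θ := by
  refine ⟨(o.res W h).per.cl, fun e => o.per.l e.1, (o.res W h).per.r,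
    fun a b c => ⟨o.per.trans (o.per.symm a) (o.per.trans b.1 c.1), h.sat.2 _ _ a b.2⟩,
    fun a b => (o.res W h).per.trans ((o.res W h).per.symm a) b, fun U hU => ?_,
    fun U hU => (FL.refl (o.res W h)).push U hU⟩
  have e : {x | ∃ y, (o.res W h).θ x y} = W := Set.ext fun x =>
    ⟨fun ⟨_, e⟩ => e.2, fun hx => ⟨x, h.sat.1 x hx, hx⟩⟩
  rw [e]
  exact h.sup U hU

theorem FL.ofRes {o o' : Obj A} {ρ : α → α → Prop} (h : FL o o' ρ) {W : Set α} (hW : Sup o W) :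
    FL (o.res W hW) o' (fun x y => ρ x y ∧ x ∈ W) := by
  refine ⟨fun κ f hf s t hs => ⟨h.cl κ f hf s t (fun k => (hs k).1),
      hW.cl κ f hf s (fun k => (hs k).2)⟩, fun e => ⟨h.dl e.1, e.2⟩, fun e => h.dr e.1,
    fun a b c => ⟨h.sat a.1 b.1 c, hW.sat.2 _ _ a.1 a.2⟩, fun a b => h.fn a.1 b.1,
    fun U hU => ?_, fun U hU => ?_⟩
  · have e : U ∩ {x | ∃ y, ρ x y ∧ x ∈ W} = U ∩ {x | ∃ y, ρ x y} := Set.ext fun x =>
      ⟨fun ⟨a, y, b, _⟩ => ⟨a, y, b⟩, fun ⟨a, y, b⟩ => ⟨a, y, b, (sat_res hU).2 a⟩⟩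
    rw [e]
    exact h.sup U (sat_res hU).1
  · have e : {x | ∃ y ∈ U, ρ x y ∧ x ∈ W} = {x | ∃ y ∈ U, ρ x y} ∩ W := Set.ext fun x =>
      ⟨fun ⟨y, a, b, c⟩ => ⟨⟨y, a, b⟩, c⟩, fun ⟨⟨y, a, b⟩, c⟩ => ⟨y, a, b, c⟩⟩
    rw [e]
    exact (h.push U hU).trans (hW.sup _ (h.sat_pre U))

theorem FL.supDom {o o' : Obj A} {ρ : α → α → Prop} (h : FL o o' ρ) :
    Sup o {x | ∃ y, ρ x y} := by
  refine ⟨fun κ f hf s hs => ?_, ⟨fun _ ⟨_, e⟩ => h.dl e,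
    fun _ _ e ⟨y, r⟩ => ⟨y, h.sat e r (h.dr r)⟩⟩, h.sup⟩
  choose y hy using hs
  exact ⟨_, h.cl κ f hf s y hy⟩

theorem FL.supRan {o o' : Obj A} {ρ : α → α → Prop} (h : FL o o' ρ) :
    Sup o' {y | ∃ x, ρ x y} := by
  have hs : Sat o'.θ {y | ∃ x, ρ x y} :=
    ⟨fun _ ⟨_, e⟩ => h.dr e, fun _ _ e ⟨x, r⟩ => ⟨x, h.sat (h.dl r) r e⟩⟩
  refine ⟨fun κ f hf s hs => ?_, hs, fun U hU => ?_⟩
  · choose x hx using hs
    exact ⟨_, h.cl κ f hf x s hx⟩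
  · rw [h.push U hU, h.push _ (hU.inter hs)]
    have e : {x | ∃ y ∈ U ∩ {y | ∃ x, ρ x y}, ρ x y} = {x | ∃ y ∈ U, ρ x y} := Set.ext fun x =>
      ⟨fun ⟨y, a, b⟩ => ⟨y, a.1, b⟩, fun ⟨y, a, b⟩ => ⟨y, ⟨a, x, b⟩, b⟩⟩
    rw [e]

theorem FL.toRan {o o' : Obj A} {ρ : α → α → Prop} (h : FL o o' ρ) :
    FL o (o'.res _ h.supRan) ρ :=
  ⟨h.cl, h.dl, fun e => ⟨h.dr e, _, e⟩, fun a b c => h.sat a b c.1,
    fun a b => ⟨h.fn a b, _, a⟩, h.sup, fun U hU => h.push U (sat_res hU).1⟩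

def Inj (o : Obj A) (ρ : α → α → Prop) : Prop := ∀ x x' y, ρ x y → ρ x' y → o.θ x x'

theorem FL.pre_img {o o' : Obj A} {ρ : α → α → Prop} (h : FL o o' ρ) (hi : Inj o ρ) {U : Set α}
    (hU : Sat o.θ U) : o.f U ↔ o'.f {y | ∃ x ∈ U, ρ x y} := by
  rw [h.push _ (h.sat_img U), h.sup U hU]
  have e : {x | ∃ y ∈ {y | ∃ x ∈ U, ρ x y}, ρ x y} = U ∩ {x | ∃ y, ρ x y} := Set.ext fun x =>
    ⟨fun ⟨y, ⟨x', a, b⟩, c⟩ => ⟨hU.2 _ _ (hi _ _ _ b c) a, y, c⟩,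
      fun ⟨a, y, b⟩ => ⟨y, ⟨x, a, b⟩, b⟩⟩
  rw [e]

theorem FL.inv {o o' : Obj A} {ρ : α → α → Prop} (h : FL o o' ρ) (hi : Inj o ρ) :
    FL o' o (fun y x => ρ x y) :=
  ⟨fun κ f hf s t hs => h.cl κ f hf t s hs, h.dr, h.dl, fun a b c => h.sat c b a,
    fun a b => hi _ _ _ a b, h.supRan.sup, fun _ hU => h.pre_img hi hU⟩

theorem FL.comp {o o1 o2 : Obj A} {ρ τ : α → α → Prop} (h : FL o o1 ρ) (hi : Inj o ρ)
    (h' : FL o1 o2 τ) : FL o o2 (fun x z => ∃ y, ρ x y ∧ τ y z) := by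
  refine ⟨fun κ f hf s t hs => ?_, fun ⟨_, a, _⟩ => h.dl a, fun ⟨_, _, a⟩ => h'.dr a,
    fun a ⟨y, b, c⟩ d => ⟨y, h.sat a b (h.dr b), h'.sat (h'.dl c) c d⟩,
    fun ⟨y, a, b⟩ ⟨y', c, d⟩ => h'.fn (h'.sat (h.fn a c) b (h'.dr b)) d,
    fun U hU => ?_, fun U hU => ?_⟩
  · choose y hy hz using hs
    exact ⟨_, h.cl κ f hf s y hy, h'.cl κ f hf y t hz⟩
  · rw [h.pre_img hi hU, h'.sup _ (h.sat_img U), h.push _ ((h.sat_img U).inter h'.supDom.sat)]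
    have e : {x | ∃ y ∈ {y | ∃ x ∈ U, ρ x y} ∩ {x | ∃ y, τ x y}, ρ x y}
        = U ∩ {x | ∃ z y, ρ x y ∧ τ y z} := Set.ext fun x =>
      ⟨fun ⟨y, ⟨⟨x', a, b⟩, z, c⟩, d⟩ => ⟨hU.2 _ _ (hi _ _ _ b d) a, z, y, d, c⟩,
        fun ⟨a, z, y, b, c⟩ => ⟨y, ⟨⟨x, a, b⟩, z, c⟩, b⟩⟩
    rw [e]
  · rw [h'.push U hU, h.push _ (h'.sat_pre U)]
    have e : {x | ∃ y ∈ {y | ∃ z ∈ U, τ y z}, ρ x y} = {x | ∃ z ∈ U, ∃ y, ρ x y ∧ τ y z} :=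
      Set.ext fun x => ⟨fun ⟨y, ⟨z, a, b⟩, c⟩ => ⟨z, a, y, c, b⟩,
        fun ⟨z, a, y, c, b⟩ => ⟨y, ⟨z, a, b⟩, c⟩⟩
    rw [e]

def Obj.cls (o : Obj A) : Set (Set α) := {c | ∃ x, o.θ x x ∧ c = {y | o.θ x y}}

noncomputable def Obj.size (o : Obj A) : ℕ := o.cls.ncard

theorem Obj.cls_eq (o : Obj A) {x y : α} (e : o.θ x y) : {z | o.θ x z} = {z | o.θ y z} :=
  Set.ext fun _ => ⟨fun a => o.per.trans (o.per.symm e) a, fun a => o.per.trans e a⟩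

theorem Obj.of_cls_eq (o : Obj A) {x y : α} (hy : o.θ y y)
    (e : {z | o.θ x z} = {z | o.θ y z}) : o.θ x y := by
  have : y ∈ {z | o.θ x z} := e ▸ hy
  exact this

theorem FL.count [Finite α] {o o' : Obj A} {ρ : α → α → Prop} (h : FL o o' ρ)
    (hs : ∀ y, o'.θ y y → ∃ x, ρ x y) :
    o'.size ≤ o.size ∧ (o.size ≤ o'.size → (∀ x, o.θ x x → ∃ y, ρ x y) ∧ Inj o ρ) := by
  have ex : ∀ c : o'.cls, ∃ d : o.cls, ∃ x y, ρ x y ∧ d.1 = {z | o.θ x z} ∧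
      c.1 = {z | o'.θ y z} := by
    rintro ⟨c, y, hy, rfl⟩
    obtain ⟨x, hx⟩ := hs y hy
    exact ⟨⟨_, x, h.dl hx, rfl⟩, x, y, hx, rfl, rfl⟩
  choose u x y hxy hu hc using ex
  have key : ∀ c a b, ρ a b → (u c).1 = {z | o.θ a z} → c.1 = {z | o'.θ b z} := by
    intro c a b r e
    rw [hc c]
    have e1 : o.θ (x c) a := o.of_cls_eq (h.dl r) ((hu c).symm.trans e)
    exact o'.cls_eq (h.fn (h.sat e1 (hxy c) (h.dr (hxy c))) r)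
  have hinj : Function.Injective u := fun c c' e =>
    Subtype.ext ((key c _ _ (hxy c') (e ▸ hu c')).trans (hc c').symm)
  refine ⟨Nat.card_le_card_of_injective u hinj, fun hle => ?_⟩
  have hsur : Function.Surjective u := (hinj.bijective_of_nat_card_le hle).2
  constructor
  · intro a ha
    obtain ⟨c, e⟩ := hsur ⟨_, a, ha, rfl⟩
    have e1 : o.θ (x c) a := o.of_cls_eq ha ((hu c).symm.trans (congrArg Subtype.val e))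
    exact ⟨_, h.sat e1 (hxy c) (h.dr (hxy c))⟩
  · intro a a' b r r'
    obtain ⟨c, e⟩ := hsur ⟨_, a, h.dl r, rfl⟩
    obtain ⟨c', e'⟩ := hsur ⟨_, a', h.dl r', rfl⟩
    have e1 : c = c' := Subtype.ext ((key c a b r (congrArg Subtype.val e)).trans
      (key c' a' b r' (congrArg Subtype.val e')).symm)
    exact o.of_cls_eq (h.dl r') (congrArg Subtype.val (e.symm.trans (e1 ▸ e')))

end H6PP
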