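import Pool.Agent.Lib.MP_8f9fef_lc.Main
import Pool.Agent.Lib.MP_8f9fef_lc.CycDef
import Pool.Agent.Lib.MP_8f9fef_lc.A5

/-! The tournament and the prime cycles decide all structures with at most 20 elements, and not
those with 21. -/

namespace H6PP

open Pool.Agent.Lib.MP_8f9fef_lc.Grp21
open scoped Pointwise

variable {σ : Sig}

theorem equivar' (G X Y : Type) [Group G] [MulAction G X] [Nonempty X] [MulAction G Y]
    (hs : ∀ H : Subgroup G, H ≠ ⊤ → ∃ x : X, ∀ g ∈ H, g • x = x) :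
    ∃ γ : Y → X, ∀ y : Y, (∃ g : G, g • y ≠ y) → ∀ g : G, γ (g • y) = g • γ y := by
  let rep : Y → Y := fun y => (Quotient.mk (MulAction.orbitRel G Y) y).out
  have h1 : ∀ y, ∃ g : G, g • rep y = y := fun y =>
    (MulAction.orbitRel G Y).symm (Quotient.exact (Quotient.out_eq
      (Quotient.mk (MulAction.orbitRel G Y) y)))
  choose c hc using h1
  have h2 : ∀ r : Y, ∃ x : X, (∃ g : G, g • r ≠ r) → ∀ g : G, g • r = r → g • x = x := by
    intro r
    by_cases h : MulAction.stabilizer G r = ⊤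
    · refine ⟨Classical.arbitrary _, fun ⟨g, hg⟩ => absurd ?_ hg⟩
      have : g ∈ MulAction.stabilizer G r := h ▸ Subgroup.mem_top g
      exact this
    · obtain ⟨x, hx⟩ := hs _ h
      exact ⟨x, fun _ g e => hx g e⟩
  choose x hx using h2
  refine ⟨fun y => c y • x (rep y), fun y hy g => ?_⟩
  have e : rep (g • y) = rep y := congrArg Quotient.out (Quotient.sound ⟨g, rfl⟩)
  have hn : ∃ g : G, g • rep y ≠ rep y := by
    by_contra hn
    push Not at hn
    obtain ⟨k, hk⟩ := hy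
    apply hk
    rw [← hc y, hn, hn]
  have e2 := hx (rep y) hn ((c (g • y))⁻¹ * g * c y) (by
    rw [mul_smul, mul_smul, hc y, inv_smul_eq_iff, ← e, hc])
  show c (g • y) • x (rep (g • y)) = g • c y • x (rep y)
  rw [mul_smul, mul_smul, inv_smul_eq_iff] at e2
  rw [e, e2]

def SC (p : ℕ) : Set ((ZMod p → ZMod p) × (ZMod p → ZMod p)) := {(fun i => i + 1, id)}

theorem not_Cyc (p : ℕ) [Fact p.Prime] : ¬ Has (Cyc p) (SC p) := by
  rintro ⟨(f : (ZMod p → ZMod p) → ZMod p), hf, h⟩
  have e : f (fun i => i + 1) = f (fun i => i) + 1 :=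
    hf () (fun i : ZMod p => ![i, i + 1]) (fun _ => rfl)
  have e2 : f (fun i => i + 1) = f (fun i => i) := h _ rfl id
  rw [e2] at e
  exact one_ne_zero (left_eq_add.mp e)

theorem has_P2_SC (p : ℕ) [Fact p.Prime] : Has P2 (SC p) := by
  classical
  refine ⟨fun t : ZMod p → Bool => decide (∀ x, t x = true), (pol_P2 _).2 ⟨by simp, by simp⟩, ?_⟩
  rintro q rfl (t : ZMod p → Bool)
  show decide (∀ x, t (x + 1) = true) = decide (∀ x, t x = true)
  rw [decide_eq_decide]
  exact ⟨fun h x => by simpa using h (x - 1), fun h x => h _⟩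

theorem cyc_of_act (B : Str σ) (G X : Type) [Group G] [Finite G] [MulAction G X] [Finite X]
    [Nonempty X] [IsSimpleGroup G] (hc : IsCyclic G) (hf : ∀ x : X, ∃ g : G, g • x ≠ x)
    (h : PPC B (Act G X)) :
    ∃ (p : ℕ) (_ : Fact p.Prime), p ≤ Nat.card X ∧ PPC B (Cyc p) := by
  have hp : (Nat.card G).Prime := by
    let _ : CommGroup G := IsCyclic.commGroup
    exact IsSimpleGroup.prime_card (α := G)
  have hF : Fact (Nat.card G).Prime := ⟨hp⟩
  let φ : G ≃* Multiplicative (ZMod (Nat.card G)) :=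
    mulEquivOfPrimeCardEq (p := Nat.card G) rfl (by simp)
  let g0 : G := φ.symm (Multiplicative.ofAdd 1)
  obtain ⟨γ, hγ⟩ := equivar' G G X (fun H hH => ⟨1, fun g hg => by
    rcases H.eq_bot_or_eq_top_of_prime_card with h' | h'
    · rw [h', Subgroup.mem_bot] at hg
      rw [hg, one_smul]
    · exact absurd h' hH⟩)
  obtain ⟨d, R, hd, hR, ⟨u, hu⟩, ⟨v, hv⟩⟩ := h
  obtain ⟨x0⟩ : Nonempty X := inferInstance
  have hle : Nat.card G ≤ Nat.card X :=
    Nat.card_le_card_of_injective (fun g : G => g • x0) fun a b hab => by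
      have e1 := hγ x0 (hf x0) a
      have e2 := hγ x0 (hf x0) b
      have e3 : a • x0 = b • x0 := hab
      rw [e3, e2] at e1
      exact (mul_right_cancel (e1 : b * γ x0 = a * γ x0)).symm
  refine ⟨Nat.card G, hF, hle, d, fun _ => R g0, hd, fun _ => hR g0,
    ⟨fun i : ZMod (Nat.card G) => u (φ.symm (Multiplicative.ofAdd i) • x0), ?_⟩,
    ⟨fun y => Multiplicative.toAdd (φ (γ (v y))), ?_⟩⟩
  · intro _ (t : Fin 2 → ZMod (Nat.card G)) (ht : t 1 = t 0 + 1)
    refine hu g0 (fun j : Fin 2 => φ.symm (Multiplicative.ofAdd (t j)) • x0) ?_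
    show φ.symm (Multiplicative.ofAdd (t 1)) • x0 =
      g0 • φ.symm (Multiplicative.ofAdd (t 0)) • x0
    rw [ht, add_comm, ofAdd_add, map_mul, mul_smul]
  · intro _ t ht
    have e : (show X from v (t (1 : Fin 2))) = g0 • (show X from v (t (0 : Fin 2))) := hv g0 t ht
    show Multiplicative.toAdd (φ (γ (v (t (1 : Fin 2))))) =
      Multiplicative.toAdd (φ (γ (v (t (0 : Fin 2))))) + 1
    have e2 := hγ _ (hf (v (t (0 : Fin 2)))) g0
    rw [← e] at e2
    have e3 : γ (v (t (1 : Fin 2))) = g0 * γ (v (t (0 : Fin 2))) := e2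
    rw [e3, map_mul, toAdd_mul, add_comm]
    simp [g0]

theorem small (B : Str σ) (hB : Nat.card B.D ≤ 20) (P : Set ℕ)
    (hP : ∀ p : ℕ, p.Prime → p ≤ Nat.card B.D → p ∈ P) :
    ¬ PPC P2 B ↔ (PPC B T3 ∨ ∃ (p : ℕ) (_ : Fact p.Prime), p ∈ P ∧ PPC B (Cyc p)) := by
  constructor
  · intro h
    rcases (final B).1 h with h | ⟨G, X, _, _, _, _, _, hg, hX, h⟩
    · exact Or.inl h
    · have := hg.1
      have hf : ∀ x : X, ∃ g : G, g • x ≠ x := fun x => by
        by_contra hcon
        push Not at hcon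
        exact ((hg.2 _).2 ⟨x, rfl⟩).1 (eq_top_iff.mpr fun g _ => hcon g)
      have hs : ∀ H : Subgroup G, H ≠ ⊤ → ∃ x : X, ∀ g ∈ H, g • x = x := fun H hH => by
        obtain ⟨M, hM, hle⟩ := (eq_top_or_exists_le_coatom H).resolve_left hH
        obtain ⟨x, rfl⟩ := (hg.2 M).1 hM
        exact ⟨x, fun g hg => hle hg⟩
      rcases grp21 hf hs with hc | h21
      · obtain ⟨p, hp, h1, h2⟩ := cyc_of_act B G X hc hf h
        exact Or.inr ⟨p, hp, hP p hp.out (h1.trans hX), h2⟩
      · omega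
  · rintro (h | ⟨p, _, -, h⟩) h2
    · exact not_T3 (h.has (h2.has has_P2_SQ))
    · exact not_Cyc p (h.has (h2.has (has_P2_SC p)))

theorem act_SQ (G X : Type) [Group G] [Finite G] [MulAction G X] [Finite X] [Nonempty X] :
    Has (Act G X) SQ := by
  classical
  refine ⟨fun t : Fin 3 → X => if t 0 = t 1 then t 2 else t 0, ?_, ?_⟩
  · intro (g : G) (s : Fin 3 → Fin 2 → X) hs
    have h0 : s 0 1 = g • s 0 0 := hs 0
    have h1 : s 1 1 = g • s 1 0 := hs 1
    have h2 : s 2 1 = g • s 2 0 := hs 2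
    show (if s 0 1 = s 1 1 then s 2 1 else s 0 1) = g • (if s 0 0 = s 1 0 then s 2 0 else s 0 0)
    rw [h0, h1, h2]
    simp only [smul_left_cancel_iff]
    split_ifs <;> rfl
  · rintro p (rfl | rfl) (t : Bool → X)
    · show (if t true = t false then t false else t true) =
        if t true = t true then t true else t true
      split_ifs with h h' <;> simp_all
    · show (if t false = t false then t true else t false) =
        if t true = t true then t true else t true
      simp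

theorem act_SC (G X : Type) [Group G] [Finite G] [MulAction G X] [Finite X] [Nonempty X]
    [IsSimpleGroup G] (hc : ¬ IsCyclic G) (hf : ∀ x : X, ∃ g : G, g • x ≠ x)
    (hs : ∀ H : Subgroup G, H ≠ ⊤ → ∃ x : X, ∀ g ∈ H, g • x = x) (p : ℕ) :
    Has (Act G X) (SC p) := by
  obtain ⟨γ, hγ⟩ := equivar' G X (Set (ZMod p → X)) hs
  let O : (ZMod p → X) → Set (ZMod p → X) := fun t => {u | ∃ k, u = fun i => t (i + k)}
  have hO : ∀ (g : G) t, O (g • t) = g • O t := fun g t => by
    ext u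
    constructor
    · rintro ⟨k, rfl⟩
      exact ⟨_, ⟨k, rfl⟩, rfl⟩
    · rintro ⟨_, ⟨k, rfl⟩, rfl⟩
      exact ⟨k, rfl⟩
  have hmv : ∀ t, ∃ g : G, g • O t ≠ O t := fun t => by
    by_contra hcon
    push Not at hcon
    have h1 : ∀ g : G, ∃ k, ∀ i, g • t i = t (i + k) := fun g => by
      have : g • t ∈ O t := hcon g ▸ ⟨t, ⟨0, by simp⟩, rfl⟩
      obtain ⟨k, hk⟩ := this
      exact ⟨k, fun i => congrFun hk i⟩
    choose k hk using h1
    have h2 : ∀ a b : G, (a * b) • t = (b * a) • t := fun a b => by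
      funext i
      show (a * b) • t i = (b * a) • t i
      rw [mul_smul, mul_smul, hk, hk, hk, hk, add_right_comm]
    have hn : (MulAction.stabilizer G t).Normal := ⟨fun n hn g => by
      rw [MulAction.mem_stabilizer_iff] at hn ⊢
      rw [mul_assoc, mul_smul, h2, ← mul_smul, mul_inv_cancel_left, hn]⟩
    rcases hn.eq_bot_or_eq_top with h | h
    · refine noncomm hc fun a b => ?_
      have : (b * a)⁻¹ * (a * b) ∈ MulAction.stabilizer G t := by
        rw [MulAction.mem_stabilizer_iff, mul_smul, h2, inv_smul_smul]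
      rw [h, Subgroup.mem_bot, inv_mul_eq_one] at this
      exact this.symm
    · obtain ⟨g, hg⟩ := hf (t 0)
      have : g ∈ MulAction.stabilizer G t := h ▸ Subgroup.mem_top g
      exact hg (congrFun this 0)
  refine ⟨fun t : ZMod p → X => γ (O t), ?_, ?_⟩
  · intro (g : G) (s : ZMod p → Fin 2 → X) hs'
    have e : (fun k => s k 1) = g • (fun k => s k 0) := funext fun k => hs' k
    show γ (O fun k => s k 1) = g • γ (O fun k => s k 0)
    rw [e, hO]
    exact hγ (O fun k => s k 0) (hmv fun k => s k 0) g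
  · rintro q rfl (t : ZMod p → X)
    show γ (O fun i => t (i + 1)) = γ (O t)
    congr 1
    ext u
    constructor
    · rintro ⟨k, rfl⟩
      exact ⟨k + 1, funext fun i => congrArg t (add_assoc i k 1)⟩
    · rintro ⟨k, rfl⟩
      exact ⟨k - 1, funext fun i => congrArg t (by ring : i + k = i + (k - 1) + 1)⟩

theorem twenty (n : ℕ) (P : Set ℕ) (hP : ∀ p : ℕ, p.Prime → p ≤ n → p ∈ P) :
    (∀ (σ : Sig) (B : Str σ), Nat.card B.D ≤ n → (¬ PPC P2 B ↔
      (PPC B T3 ∨ ∃ (p : ℕ) (_ : Fact p.Prime), p ∈ P ∧ PPC B (Cyc p)))) ↔ n ≤ 20 := by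
  refine ⟨fun h => ?_, fun hn σ B hB =>
    small B (hB.trans hn) P fun p hp h => hP p hp (h.trans hB)⟩
  by_contra hn
  have h1 := (h _ (Act A5 X21) (card_X21.trans (by omega))).1 (fun h2 => by
    obtain ⟨f, hf, h3⟩ := h2.has (has_P2_SG A5 X21)
    obtain ⟨g, hg⟩ := hf21 (f id)
    have e := hf g (fun x : X21 => ![x, g • x]) (fun _ => rfl)
    exact hg ((Eq.symm e).trans (h3 _ ⟨g, rfl⟩ id)))
  rcases h1 with h1 | ⟨p, _, -, h1⟩
  · exact not_T3 (h1.has (act_SQ A5 X21))
  · exact not_Cyc p (h1.has (act_SC A5 X21 not_cyc hf21 hs21 p))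

end H6PP
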